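import Pool.Agent.helper8.MC.Torus

/-!
# Generic constructions: products with circles, scaling, transport
-/

open scoped Manifold ContDiff Topology InnerProductSpace

noncomputable section

namespace Pool.Agent.helper8.MC

section general

variable {E : Type*} [NormedAddCommGroup E] [NormedSpace ℝ E]
  {F : Type*} [NormedAddCommGroup F] [InnerProductSpace ℝ F]

/-- all normal curvatures of `f` on `M` are at most `c` -/
def GCurvLE (M : Set E) (f : E → F) (c : ℝ) : Prop :=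
  ∀ x ∈ M, ∀ w : E, ∀ ν : F, (∀ u, ⟪fderiv ℝ f x u, ν⟫_ℝ = 0) →
    |⟪fderiv ℝ (fun z => fderiv ℝ f z w) x w, ν⟫_ℝ| ≤ c * ‖fderiv ℝ f x w‖ ^ 2 * ‖ν‖

/-- the normal component is controlled by the inner products with normal vectors -/
theorem norm_proj_le [FiniteDimensional ℝ F] (T : Submodule ℝ F) (a : F) {C : ℝ} (hC : 0 ≤ C)
    (h : ∀ ν : F, (∀ t ∈ T, ⟪t, ν⟫_ℝ = 0) → |⟪a, ν⟫_ℝ| ≤ C * ‖ν‖) :
    ‖(Tᗮ).starProjection a‖ ≤ C := by
  set ν := (Tᗮ).starProjection a with hν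
  have h1 : ν ∈ Tᗮ := Submodule.starProjection_apply_mem _ _
  have h2 : ∀ t ∈ T, ⟪t, ν⟫_ℝ = 0 := fun t ht => (Submodule.mem_orthogonal T ν).1 h1 t ht
  have h3 := h ν h2
  have h4 : ⟪a, ν⟫_ℝ = ‖ν‖ ^ 2 := by
    have h5 : ⟪a - ν, ν⟫_ℝ = 0 := by
      rw [hν, real_inner_comm]
      exact Submodule.inner_right_of_mem_orthogonal h1 (Submodule.sub_starProjection_mem_orthogonal a)
    rw [inner_sub_left, real_inner_self_eq_norm_sq] at h5
    linarith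
  rw [h4, abs_of_nonneg (sq_nonneg _)] at h3
  rcases (norm_nonneg ν).eq_or_lt with h6 | h6
  · rw [← h6]; exact hC
  · have : ‖ν‖ * ‖ν‖ ≤ C * ‖ν‖ := by rw [← sq]; exact h3
    exact le_of_mul_le_mul_right this h6

/-- scaling -/
theorem GCurvLE.smul {M : Set E} {f : E → F} {c r : ℝ} (h : GCurvLE M f c) (hr : 0 < r) :
    GCurvLE M (fun x => r • f x) (c / r) := by
  have h1 : ∀ x, fderiv ℝ (fun x => r • f x) x = r • fderiv ℝ f x := fun x => by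
    have := congrFun (fderiv_const_smul_field (𝕜 := ℝ) (f := f) r) x
    exact this
  intro x hx w ν hν
  have h2 : (fun z => fderiv ℝ (fun x => r • f x) z w) = fun z => r • fderiv ℝ f z w := by
    funext z
    rw [h1]
    rfl
  have h3 : fderiv ℝ (fun z => r • fderiv ℝ f z w) x = r • fderiv ℝ (fun z => fderiv ℝ f z w) x := by
    have := congrFun (fderiv_const_smul_field (𝕜 := ℝ) (f := fun z => fderiv ℝ f z w) r) x
    exact this
  have h4 : ∀ u, ⟪fderiv ℝ f x u, ν⟫_ℝ = 0 := by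
    intro u
    have h5 := hν u
    rw [h1, smul_apply, inner_smul_left] at h5
    rcases mul_eq_zero.1 h5 with h6 | h6
    · exact absurd h6 hr.ne'
    · exact h6
  have h5 := h x hx w ν h4
  rw [h2, h3, h1, smul_apply, smul_apply, inner_smul_left, norm_smul, abs_mul]
  simp only [conj_trivial, Real.norm_eq_abs, abs_of_pos hr]
  calc r * |⟪fderiv ℝ (fun z => fderiv ℝ f z w) x w, ν⟫_ℝ|
      ≤ r * (c * ‖fderiv ℝ f x w‖ ^ 2 * ‖ν‖) := mul_le_mul_of_nonneg_left h5 hr.le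
    _ = c / r * (r * ‖fderiv ℝ f x w‖) ^ 2 * ‖ν‖ := by field_simp

theorem GCurvLE.mono {M : Set E} {f : E → F} {c c' : ℝ} (h : GCurvLE M f c) (hc : c ≤ c') :
    GCurvLE M f c' := by
  intro x hx w ν hν
  refine (h x hx w ν hν).trans ?_
  gcongr

/-- transport by a linear isomorphism: derivative -/
theorem fderiv_comp_symm {m N : ℕ} (L : E ≃L[ℝ] Eu m) (f : E → Eu N) (z : Eu m) :
    fderiv ℝ (f ∘ L.symm) z = (fderiv ℝ f (L.symm z)).comp (L.symm : Eu m →L[ℝ] E) :=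
  L.symm.comp_right_fderiv

theorem curvLE_comp_symm {m N : ℕ} (L : E ≃L[ℝ] Eu m) {M : Set E} {f : E → Eu N} {c : ℝ}
    (hc : 0 ≤ c) (h : GCurvLE M f c) {Ω : Set (Eu m)} (hΩ : ∀ z ∈ Ω, L.symm z ∈ M) :
    CurvLE (f ∘ L.symm) Ω c := by
  intro z hz v
  unfold nII
  apply norm_proj_le
  · positivity
  · intro ν hν
    have h1 : (fun z' => fderiv ℝ (f ∘ L.symm) z' v)
        = (fun x => fderiv ℝ f x (L.symm v)) ∘ L.symm := by
      funext z'
      rw [fderiv_comp_symm]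
      rfl
    have h2 : fderiv ℝ (fun z' => fderiv ℝ (f ∘ L.symm) z' v) z v
        = fderiv ℝ (fun x => fderiv ℝ f x (L.symm v)) (L.symm z) (L.symm v) := by
      rw [h1, fderiv_comp_symm]
      rfl
    rw [h2, fderiv_comp_symm]
    apply h (L.symm z) (hΩ z hz) (L.symm v) ν
    intro u
    apply hν
    refine ⟨L u, ?_⟩
    rw [fderiv_comp_symm]
    show fderiv ℝ f (L.symm z) (L.symm (L u)) = fderiv ℝ f (L.symm z) u
    rw [L.symm_apply_apply]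

theorem flatImm_comp_symm {m N : ℕ} (L : E ≃L[ℝ] Eu m) {M : Set E} {f : E → Eu N}
    (hf : ContDiffOn ℝ ∞ f M) (hi : ∀ x ∈ M, ∀ u, fderiv ℝ f x u = 0 → u = 0)
    {Ω : Set (Eu m)} (hΩ : ∀ z ∈ Ω, L.symm z ∈ M) : FlatImm (f ∘ L.symm) Ω := by
  refine ⟨hf.comp L.symm.contDiff.contDiffOn hΩ, ?_⟩
  intro z hz
  rw [injective_iff_map_eq_zero]
  intro v hv
  rw [fderiv_comp_symm] at hv
  have h1 : L.symm v = 0 := hi _ (hΩ z hz) _ hv
  rwa [map_eq_zero_iff L.symm L.symm.injective] at h1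

/-! ### Product with a circle -/

section circle

variable {H : Type*} [NormedAddCommGroup H] [InnerProductSpace ℝ H]

/-- the map `(f, cos α, sin α)` -/
def circ (ι : F →ₗᵢ[ℝ] H) (e₁ e₂ : H) (f : E → F) (α : E → ℝ) (x : E) : H :=
  ι (f x) + (Real.cos (α x) • e₁ + Real.sin (α x) • e₂)

/-- the orthogonality relations -/
structure CircDat (ι : F →ₗᵢ[ℝ] H) (e₁ e₂ : H) : Prop where
  n1 : ‖e₁‖ = 1
  n2 : ‖e₂‖ = 1
  o : ⟪e₁, e₂⟫_ℝ = 0
  o1 : ∀ v, ⟪ι v, e₁⟫_ℝ = 0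
  o2 : ∀ v, ⟪ι v, e₂⟫_ℝ = 0

theorem circ_norm_sq {ι : F →ₗᵢ[ℝ] H} {e₁ e₂ : H} (D : CircDat ι e₁ e₂) (v : F) (a b : ℝ) :
    ‖ι v + (a • e₁ + b • e₂)‖ ^ 2 = ‖v‖ ^ 2 + (a ^ 2 + b ^ 2) := by
  have h1 : ⟪ι v, a • e₁ + b • e₂⟫_ℝ = 0 := by
    rw [inner_add_right, inner_smul_right, inner_smul_right, D.o1, D.o2]
    ring
  have h2 : ⟪a • e₁, b • e₂⟫_ℝ = 0 := by
    rw [inner_smul_left, inner_smul_right, D.o]
    simp
  rw [@norm_add_sq_real, h1, @norm_add_sq_real, h2, ι.norm_map, norm_smul, norm_smul, D.n1, D.n2]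
  simp only [mul_one, mul_zero, add_zero, Real.norm_eq_abs, sq_abs]

theorem circ_hasFDerivAt (ι : F →ₗᵢ[ℝ] H) (e₁ e₂ : H) {f : E → F} {α : E → ℝ} {x : E}
    (hf : DifferentiableAt ℝ f x) (hα : DifferentiableAt ℝ α x) :
    HasFDerivAt (circ ι e₁ e₂ f α) (ι.toContinuousLinearMap.comp (fderiv ℝ f x) +
      ((-(Real.sin (α x)) • fderiv ℝ α x).smulRight e₁ +
        (Real.cos (α x) • fderiv ℝ α x).smulRight e₂)) x := by
  unfold circ
  refine HasFDerivAt.add ?_ (HasFDerivAt.add ?_ ?_)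
  · exact ι.toContinuousLinearMap.hasFDerivAt.comp x hf.hasFDerivAt
  · exact (hα.hasFDerivAt.cos).smul_const e₁
  · exact (hα.hasFDerivAt.sin).smul_const e₂

theorem circ_fderiv_apply (ι : F →ₗᵢ[ℝ] H) (e₁ e₂ : H) {f : E → F} {α : E → ℝ} {x : E}
    (hf : DifferentiableAt ℝ f x) (hα : DifferentiableAt ℝ α x) (u : E) :
    fderiv ℝ (circ ι e₁ e₂ f α) x u = ι (fderiv ℝ f x u) +
      ((-(Real.sin (α x)) * fderiv ℝ α x u) • e₁ + (Real.cos (α x) * fderiv ℝ α x u) • e₂) := by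
  rw [(circ_hasFDerivAt ι e₁ e₂ hf hα).fderiv]
  rfl

theorem circ_contDiffOn (ι : F →ₗᵢ[ℝ] H) (e₁ e₂ : H) {M : Set E} {f : E → F} {α : E → ℝ}
    (hf : ContDiffOn ℝ ∞ f M) (hα : ContDiffOn ℝ ∞ α M) :
    ContDiffOn ℝ ∞ (circ ι e₁ e₂ f α) M := by
  unfold circ
  refine ContDiffOn.add ?_ (ContDiffOn.add ?_ ?_)
  · exact ι.toContinuousLinearMap.contDiff.comp_contDiffOn hf
  · exact (hα.cos).smul contDiffOn_const
  · exact (hα.sin).smul contDiffOn_const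

theorem circ_norm_fderiv_sq {ι : F →ₗᵢ[ℝ] H} {e₁ e₂ : H} (D : CircDat ι e₁ e₂) {f : E → F}
    {α : E → ℝ} {x : E} (hf : DifferentiableAt ℝ f x) (hα : DifferentiableAt ℝ α x) (u : E) :
    ‖fderiv ℝ (circ ι e₁ e₂ f α) x u‖ ^ 2 = ‖fderiv ℝ f x u‖ ^ 2 + fderiv ℝ α x u ^ 2 := by
  rw [circ_fderiv_apply ι e₁ e₂ hf hα, circ_norm_sq D]
  have := Real.sin_sq_add_cos_sq (α x)
  linear_combination (fderiv ℝ α x u) ^ 2 * this

/-- the second derivative -/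
theorem circ_fderiv_fderiv (ι : F →ₗᵢ[ℝ] H) (e₁ e₂ : H) {M : Set E} (hM : IsOpen M) {f : E → F}
    {α : E → ℝ} (hf : ContDiffOn ℝ ∞ f M) (hα : ContDiffOn ℝ ∞ α M) {x : E} (hx : x ∈ M) (w : E) :
    fderiv ℝ (fun z => fderiv ℝ (circ ι e₁ e₂ f α) z w) x w =
      ι (fderiv ℝ (fun z => fderiv ℝ f z w) x w) +
        ((-(Real.cos (α x)) * (fderiv ℝ α x w) ^ 2) • e₁ +
          (-(Real.sin (α x)) * (fderiv ℝ α x w) ^ 2) • e₂) +
        (fderiv ℝ (fun z => fderiv ℝ α z w) x w) • (-(Real.sin (α x)) • e₁ + Real.cos (α x) • e₂) := by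
  have hd : ∀ z ∈ M, DifferentiableAt ℝ f z := fun z hz =>
    (hf.contDiffAt (hM.mem_nhds hz)).differentiableAt (by simp)
  have hdα : ∀ z ∈ M, DifferentiableAt ℝ α z := fun z hz =>
    (hα.contDiffAt (hM.mem_nhds hz)).differentiableAt (by simp)
  have hd2 : DifferentiableAt ℝ (fun z => fderiv ℝ f z w) x := by
    have h1 : ContDiffAt ℝ 1 (fderiv ℝ f) x :=
      (hf.contDiffAt (hM.mem_nhds hx)).fderiv_right (m := 1) (by norm_cast)
    exact (h1.differentiableAt (by simp)).clm_apply (differentiableAt_const w)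
  have hdα2 : DifferentiableAt ℝ (fun z => fderiv ℝ α z w) x := by
    have h1 : ContDiffAt ℝ 1 (fderiv ℝ α) x :=
      (hα.contDiffAt (hM.mem_nhds hx)).fderiv_right (m := 1) (by norm_cast)
    exact (h1.differentiableAt (by simp)).clm_apply (differentiableAt_const w)
  have hev : (fun z => fderiv ℝ (circ ι e₁ e₂ f α) z w) =ᶠ[𝓝 x] fun z =>
      ι (fderiv ℝ f z w) + ((-(Real.sin (α z)) * fderiv ℝ α z w) • e₁ +
        (Real.cos (α z) * fderiv ℝ α z w) • e₂) := by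
    filter_upwards [hM.mem_nhds hx] with z hz
    exact circ_fderiv_apply ι e₁ e₂ (hd z hz) (hdα z hz) w
  rw [hev.fderiv_eq]
  have h1 : HasFDerivAt (fun z => ι (fderiv ℝ f z w))
      (ι.toContinuousLinearMap.comp (fderiv ℝ (fun z => fderiv ℝ f z w) x)) x :=
    ι.toContinuousLinearMap.hasFDerivAt.comp x hd2.hasFDerivAt
  have h20 : HasFDerivAt (fun z => -(Real.sin (α z))) (-(Real.cos (α x) • fderiv ℝ α x)) x :=
    (hdα x hx).hasFDerivAt.sin.neg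
  have h2 : HasFDerivAt (fun z => -(Real.sin (α z)) * fderiv ℝ α z w) _ x :=
    h20.mul hdα2.hasFDerivAt
  have h3 : HasFDerivAt (fun z => Real.cos (α z) * fderiv ℝ α z w) _ x :=
    ((hdα x hx).hasFDerivAt.cos).mul hdα2.hasFDerivAt
  have h4 : HasFDerivAt (fun z => ι (fderiv ℝ f z w) +
      ((-(Real.sin (α z)) * fderiv ℝ α z w) • e₁ + (Real.cos (α z) * fderiv ℝ α z w) • e₂)) _ x :=
    h1.add ((h2.smul_const e₁).add (h3.smul_const e₂))
  rw [h4.fderiv]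
  simp only [add_apply, ContinuousLinearMap.comp_apply, ContinuousLinearMap.smulRight_apply,
    smul_apply, neg_apply, smul_eq_mul, LinearIsometry.coe_toContinuousLinearMap]
  rw [add_assoc]
  congr 1
  simp only [smul_add, smul_smul]
  module

/-- **The curvature of the product with a circle.** -/
theorem GCurvLE.circ [CompleteSpace F] [CompleteSpace H] {ι : F →ₗᵢ[ℝ] H} {e₁ e₂ : H}
    (D : CircDat ι e₁ e₂) {M : Set E} (hM : IsOpen M) {f : E → F} {α : E → ℝ}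
    (hf : ContDiffOn ℝ ∞ f M) (hα : ContDiffOn ℝ ∞ α M) {c : ℝ} (hc : 1 ≤ c)
    (h : GCurvLE M f c) (hu : ∀ x ∈ M, ∃ u, fderiv ℝ f x u = 0 ∧ fderiv ℝ α x u = 1) :
    GCurvLE M (circ ι e₁ e₂ f α) c := by
  intro x hx w ν hν
  have hd : DifferentiableAt ℝ f x := (hf.contDiffAt (hM.mem_nhds hx)).differentiableAt (by simp)
  have hdα : DifferentiableAt ℝ α x := (hα.contDiffAt (hM.mem_nhds hx)).differentiableAt (by simp)
  obtain ⟨u, hu1, hu2⟩ := hu x hx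
  have hn : ⟪-(Real.sin (α x)) • e₁ + Real.cos (α x) • e₂, ν⟫_ℝ = 0 := by
    have h1 := hν u
    rw [circ_fderiv_apply ι e₁ e₂ hd hdα, hu1, hu2] at h1
    simpa using h1
  set ν₀ := (ContinuousLinearMap.adjoint ι.toContinuousLinearMap) ν with hν₀
  have hadj : ∀ v : F, ⟪ι v, ν⟫_ℝ = ⟪v, ν₀⟫_ℝ := fun v => by
    rw [hν₀, ContinuousLinearMap.adjoint_inner_right]
    rfl
  have hnorm : ‖ν₀‖ ≤ ‖ν‖ := by
    refine (ContinuousLinearMap.le_opNorm _ _).trans ?_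
    rw [ContinuousLinearMap.adjoint.norm_map]
    have h1 := ι.norm_toContinuousLinearMap_le
    nlinarith [norm_nonneg ν]
  have hnor : ∀ u, ⟪fderiv ℝ f x u, ν₀⟫_ℝ = 0 := by
    intro u
    have h1 := hν u
    rw [circ_fderiv_apply ι e₁ e₂ hd hdα, inner_add_left, hadj] at h1
    have h2 : (-(Real.sin (α x)) * fderiv ℝ α x u) • e₁ + (Real.cos (α x) * fderiv ℝ α x u) • e₂
        = fderiv ℝ α x u • (-(Real.sin (α x)) • e₁ + Real.cos (α x) • e₂) := by module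
    rw [h2, inner_smul_left, hn] at h1
    simpa using h1
  have h1 := h x hx w ν₀ hnor
  rw [circ_fderiv_fderiv ι e₁ e₂ hM hf hα hx w, inner_add_left, inner_add_left,
    inner_smul_left, hn, hadj, circ_norm_fderiv_sq D hd hdα]
  have h2 : (-(Real.cos (α x)) * (fderiv ℝ α x w) ^ 2) • e₁ +
      (-(Real.sin (α x)) * (fderiv ℝ α x w) ^ 2) • e₂
      = (-(fderiv ℝ α x w) ^ 2) • (Real.cos (α x) • e₁ + Real.sin (α x) • e₂) := by module
  have h3 : ‖Real.cos (α x) • e₁ + Real.sin (α x) • e₂‖ ^ 2 = 1 := by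
    have := circ_norm_sq D 0 (Real.cos (α x)) (Real.sin (α x))
    rw [map_zero, zero_add, norm_zero] at this
    rw [this]
    have := Real.sin_sq_add_cos_sq (α x)
    linarith
  have h4 : ‖Real.cos (α x) • e₁ + Real.sin (α x) • e₂‖ = 1 := by
    nlinarith [norm_nonneg (Real.cos (α x) • e₁ + Real.sin (α x) • e₂)]
  have h5 : |⟪Real.cos (α x) • e₁ + Real.sin (α x) • e₂, ν⟫_ℝ| ≤ ‖ν‖ := by
    have := abs_real_inner_le_norm (Real.cos (α x) • e₁ + Real.sin (α x) • e₂) ν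
    rwa [h4, one_mul] at this
  rw [h2, inner_smul_left]
  simp only [conj_trivial, mul_zero, add_zero]
  have h6 : |-(fderiv ℝ α x w) ^ 2 * ⟪Real.cos (α x) • e₁ + Real.sin (α x) • e₂, ν⟫_ℝ|
      ≤ (fderiv ℝ α x w) ^ 2 * ‖ν‖ := by
    rw [abs_mul, abs_neg, abs_of_nonneg (sq_nonneg _)]
    exact mul_le_mul_of_nonneg_left h5 (sq_nonneg _)
  calc |⟪fderiv ℝ (fun z => fderiv ℝ f z w) x w, ν₀⟫_ℝ +
        -(fderiv ℝ α x w) ^ 2 * ⟪Real.cos (α x) • e₁ + Real.sin (α x) • e₂, ν⟫_ℝ|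
      ≤ c * ‖fderiv ℝ f x w‖ ^ 2 * ‖ν₀‖ + (fderiv ℝ α x w) ^ 2 * ‖ν‖ :=
        (abs_add_le _ _).trans (add_le_add h1 h6)
    _ ≤ c * ‖fderiv ℝ f x w‖ ^ 2 * ‖ν‖ + c * (fderiv ℝ α x w) ^ 2 * ‖ν‖ := by
        have h7 : 0 ≤ c * ‖fderiv ℝ f x w‖ ^ 2 := by positivity
        have h8 : (fderiv ℝ α x w) ^ 2 ≤ c * (fderiv ℝ α x w) ^ 2 := by
          nlinarith [sq_nonneg (fderiv ℝ α x w)]
        have h9 := norm_nonneg ν
        exact add_le_add (mul_le_mul_of_nonneg_left hnorm h7) (mul_le_mul_of_nonneg_right h8 h9)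
    _ = c * (‖fderiv ℝ f x w‖ ^ 2 + fderiv ℝ α x w ^ 2) * ‖ν‖ := by ring

/-- the kernel of the derivative -/
theorem circ_ker {ι : F →ₗᵢ[ℝ] H} {e₁ e₂ : H} (D : CircDat ι e₁ e₂) {f : E → F}
    {α : E → ℝ} {x : E} (hf : DifferentiableAt ℝ f x) (hα : DifferentiableAt ℝ α x) {u : E}
    (h : fderiv ℝ (circ ι e₁ e₂ f α) x u = 0) : fderiv ℝ f x u = 0 ∧ fderiv ℝ α x u = 0 := by
  have h1 := circ_norm_fderiv_sq D hf hα u
  rw [h, norm_zero] at h1
  have h2 : ‖fderiv ℝ f x u‖ ^ 2 = 0 := by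
    nlinarith [sq_nonneg (‖fderiv ℝ f x u‖), sq_nonneg (fderiv ℝ α x u)]
  have h3 : fderiv ℝ α x u ^ 2 = 0 := by
    nlinarith [sq_nonneg (‖fderiv ℝ f x u‖), sq_nonneg (fderiv ℝ α x u)]
  exact ⟨by simpa using h2, by simpa using h3⟩

omit [NormedAddCommGroup E] [NormedSpace ℝ E] in
theorem circ_norm {ι : F →ₗᵢ[ℝ] H} {e₁ e₂ : H} (D : CircDat ι e₁ e₂) (f : E → F) (α : E → ℝ)
    (x : E) : ‖circ ι e₁ e₂ f α x‖ ^ 2 = ‖f x‖ ^ 2 + 1 := by
  unfold Pool.Agent.helper8.MC.circ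
  rw [circ_norm_sq D]
  have := Real.sin_sq_add_cos_sq (α x)
  linarith

end circle

/-! ### Two circle factors -/

/-- the coordinates of the product with a circle -/
theorem exists_circDat [FiniteDimensional ℝ F] :
    ∃ (ι : F →ₗᵢ[ℝ] Eu (Module.finrank ℝ F + 2)) (e₁ e₂ : Eu (Module.finrank ℝ F + 2)),
      CircDat ι e₁ e₂ := by
  set N := Module.finrank ℝ F with hN
  have hi : ∀ (n : ℕ) (x : Eu n), ‖emb n x‖ = ‖x‖ := fun n x => by
    have h1 : ‖emb n x‖ ^ 2 = ‖x‖ ^ 2 := by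
      rw [← real_inner_self_eq_norm_sq, inner_emb_emb, real_inner_self_eq_norm_sq]
    exact (sq_eq_sq₀ (norm_nonneg _) (norm_nonneg _)).1 h1
  let j1 : Eu N →ₗᵢ[ℝ] Eu (N + 1) := ⟨(emb N).toLinearMap, hi N⟩
  let j2 : Eu (N + 1) →ₗᵢ[ℝ] Eu (N + 2) := ⟨(emb (N + 1)).toLinearMap, hi (N + 1)⟩
  let φ : F →ₗᵢ[ℝ] Eu N := (stdOrthonormalBasis ℝ F).repr.toLinearIsometry
  refine ⟨j2.comp (j1.comp φ), emb (N + 1) (eL N), eL (N + 1), ?_, ?_, ?_, ?_, ?_⟩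
  · rw [hi]
    have h1 : ‖eL N‖ ^ 2 = 1 := by rw [← real_inner_self_eq_norm_sq, inner_eL_eL]
    nlinarith [norm_nonneg (eL N)]
  · have h1 : ‖eL (N + 1)‖ ^ 2 = 1 := by rw [← real_inner_self_eq_norm_sq, inner_eL_eL]
    nlinarith [norm_nonneg (eL (N + 1))]
  · exact inner_emb_eL _ _
  · intro v
    show ⟪emb (N + 1) (emb N (φ v)), emb (N + 1) (eL N)⟫_ℝ = 0
    rw [inner_emb_emb, inner_emb_eL]
  · intro v
    exact inner_emb_eL _ _

/-- **Two circle factors.** -/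
theorem exists_two_circles [FiniteDimensional ℝ F] {M : Set E} (hM : IsOpen M) {f : E → F}
    {α β : E → ℝ} (hf : ContDiffOn ℝ ∞ f M) (hα : ContDiffOn ℝ ∞ α M) (hβ : ContDiffOn ℝ ∞ β M)
    {c : ℝ} (hc : 1 ≤ c) (h : GCurvLE M f c)
    (hu1 : ∀ x ∈ M, ∃ u, fderiv ℝ f x u = 0 ∧ fderiv ℝ α x u = 1)
    (hu2 : ∀ x ∈ M, ∃ u, fderiv ℝ f x u = 0 ∧ fderiv ℝ α x u = 0 ∧ fderiv ℝ β x u = 1) :
    ∃ G : E → Eu (Module.finrank ℝ F + 4), ContDiffOn ℝ ∞ G M ∧ GCurvLE M G c ∧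
      (∀ x ∈ M, ∀ u, fderiv ℝ G x u = 0 →
        fderiv ℝ f x u = 0 ∧ fderiv ℝ α x u = 0 ∧ fderiv ℝ β x u = 0) ∧
      (∀ x, ‖G x‖ ^ 2 = ‖f x‖ ^ 2 + 2) ∧
      (∀ x y, f x = f y → Real.cos (α x) = Real.cos (α y) → Real.sin (α x) = Real.sin (α y) →
        Real.cos (β x) = Real.cos (β y) → Real.sin (β x) = Real.sin (β y) → G x = G y) := by
  obtain ⟨ι, e₁, e₂, D⟩ := exists_circDat (F := F)
  obtain ⟨ι', e₁', e₂', D'⟩ := exists_circDat (F := Eu (Module.finrank ℝ F + 2))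
  have hfin : Module.finrank ℝ (Eu (Module.finrank ℝ F + 2)) + 2 = Module.finrank ℝ F + 4 := by
    simp
  rw [← hfin]
  have hd : ∀ x ∈ M, DifferentiableAt ℝ f x := fun z hz =>
    (hf.contDiffAt (hM.mem_nhds hz)).differentiableAt (by simp)
  have hdα : ∀ x ∈ M, DifferentiableAt ℝ α x := fun z hz =>
    (hα.contDiffAt (hM.mem_nhds hz)).differentiableAt (by simp)
  have hdβ : ∀ x ∈ M, DifferentiableAt ℝ β x := fun z hz =>
    (hβ.contDiffAt (hM.mem_nhds hz)).differentiableAt (by simp)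
  have hs1 := circ_contDiffOn ι e₁ e₂ hf hα
  have hd1 : ∀ x ∈ M, DifferentiableAt ℝ (circ ι e₁ e₂ f α) x := fun z hz =>
    (hs1.contDiffAt (hM.mem_nhds hz)).differentiableAt (by simp)
  refine ⟨circ ι' e₁' e₂' (circ ι e₁ e₂ f α) β, circ_contDiffOn ι' e₁' e₂' hs1 hβ, ?_, ?_, ?_, ?_⟩
  · refine GCurvLE.circ D' hM hs1 hβ hc (GCurvLE.circ D hM hf hα hc h hu1) ?_
    intro x hx
    obtain ⟨u, h1, h2, h3⟩ := hu2 x hx
    refine ⟨u, ?_, h3⟩
    rw [circ_fderiv_apply ι e₁ e₂ (hd x hx) (hdα x hx), h1, h2]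
    simp
  · intro x hx u h1
    obtain ⟨h2, h3⟩ := circ_ker D' (hd1 x hx) (hdβ x hx) h1
    obtain ⟨h4, h5⟩ := circ_ker D (hd x hx) (hdα x hx) h2
    exact ⟨h4, h5, h3⟩
  · intro x
    rw [circ_norm D', circ_norm D]
    ring
  · intro x y h1 h2 h3 h4 h5
    simp only [circ]
    rw [h1, h2, h3, h4, h5]

/-! ### Suspension of an immersion -/

/-- One circle: `(g', (R + g₀) cos α, (R + g₀) sin α)`. -/
theorem exists_susp1 {F' : Type*} [NormedAddCommGroup F'] [NormedSpace ℝ F']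
    [FiniteDimensional ℝ F'] {k : ℕ} (hk : Module.finrank ℝ F' = k + 1) {M : Set E}
    (hM : IsOpen M) {g : E → F'} {α : E → ℝ} (hg : ContDiffOn ℝ ∞ g M) (hα : ContDiffOn ℝ ∞ α M)
    {B : ℝ} (hB : ∀ x ∈ M, ‖g x‖ ≤ B) :
    ∃ G : E → Eu (k + 2), ContDiffOn ℝ ∞ G M ∧ (∃ B', ∀ x ∈ M, ‖G x‖ ≤ B') ∧
      (∀ x ∈ M, ∀ u, fderiv ℝ G x u = 0 → fderiv ℝ g x u = 0 ∧ fderiv ℝ α x u = 0) ∧
      (∀ x y, g x = g y → Real.cos (α x) = Real.cos (α y) → Real.sin (α x) = Real.sin (α y) →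
        G x = G y) := by
  have hfr : Module.finrank ℝ F' = Module.finrank ℝ (Eu (k + 1)) := by
    rw [hk, finrank_euclideanSpace_fin]
  obtain ⟨φ⟩ : Nonempty (F' ≃L[ℝ] Eu (k + 1)) :=
    ⟨(LinearEquiv.ofFinrankEq F' (Eu (k + 1)) hfr).toContinuousLinearEquiv⟩
  set ℓ : F' →L[ℝ] ℝ := (lst k).comp (φ : F' →L[ℝ] Eu (k + 1)) with hℓ
  set T : F' →L[ℝ] Eu (k + 2) := (emb (k + 1)).comp ((emb k).comp ((ini k).comp
    (φ : F' →L[ℝ] Eu (k + 1)))) with hT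
  set e₁ : Eu (k + 2) := emb (k + 1) (eL k) with he₁
  set e₂ : Eu (k + 2) := eL (k + 1) with he₂
  have o11 : ⟪e₁, e₁⟫_ℝ = 1 := by rw [he₁, inner_emb_emb, inner_eL_eL]
  have o22 : ⟪e₂, e₂⟫_ℝ = 1 := inner_eL_eL _
  have o12 : ⟪e₁, e₂⟫_ℝ = 0 := inner_emb_eL _ _
  have o21 : ⟪e₂, e₁⟫_ℝ = 0 := inner_eL_emb _ _
  have oT1 : ∀ v, ⟪T v, e₁⟫_ℝ = 0 := fun v => by
    show ⟪emb (k + 1) (emb k (ini k (φ v))), emb (k + 1) (eL k)⟫_ℝ = 0
    rw [inner_emb_emb, inner_emb_eL]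
  have oT2 : ∀ v, ⟪T v, e₂⟫_ℝ = 0 := fun v => inner_emb_eL _ _
  have hker : ∀ v, T v = 0 → ℓ v = 0 → v = 0 := by
    intro v h1 h2
    have h3 : emb k (ini k (φ v)) = 0 := emb_injective (k + 1) (by rw [map_zero]; exact h1)
    have h4 : ini k (φ v) = 0 := emb_injective k (by rw [map_zero]; exact h3)
    have h5 : φ v = 0 := ini_lst_eq_zero h4 h2
    exact φ.injective (by rw [h5, map_zero])
  set R : ℝ := ‖ℓ‖ * B + 1 with hR
  have hpos : ∀ x ∈ M, 0 < R + ℓ (g x) := by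
    intro x hx
    have h1 : |ℓ (g x)| ≤ ‖ℓ‖ * B :=
      (ℓ.le_opNorm (g x)).trans (mul_le_mul_of_nonneg_left (hB x hx) (norm_nonneg _))
    have h2 := neg_le_of_abs_le h1
    linarith
  have hd : ∀ x ∈ M, DifferentiableAt ℝ g x := fun z hz =>
    (hg.contDiffAt (hM.mem_nhds hz)).differentiableAt (by simp)
  have hdα : ∀ x ∈ M, DifferentiableAt ℝ α x := fun z hz =>
    (hα.contDiffAt (hM.mem_nhds hz)).differentiableAt (by simp)
  have hℓg : ContDiffOn ℝ ∞ (fun x => R + ℓ (g x)) M :=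
    contDiffOn_const.add (ℓ.contDiff.comp_contDiffOn hg)
  refine ⟨fun x => T (g x) + (((R + ℓ (g x)) * Real.cos (α x)) • e₁ +
    ((R + ℓ (g x)) * Real.sin (α x)) • e₂), ?_, ?_, ?_, ?_⟩
  · refine ContDiffOn.add ?_ (ContDiffOn.add ?_ ?_)
    · exact T.contDiff.comp_contDiffOn hg
    · exact (hℓg.mul hα.cos).smul contDiffOn_const
    · exact (hℓg.mul hα.sin).smul contDiffOn_const
  · refine ⟨‖T‖ * B + (2 * R * ‖e₁‖ + 2 * R * ‖e₂‖), ?_⟩
    intro x hx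
    have h1 : |ℓ (g x)| ≤ ‖ℓ‖ * B :=
      (ℓ.le_opNorm (g x)).trans (mul_le_mul_of_nonneg_left (hB x hx) (norm_nonneg _))
    have h2 := hpos x hx
    have h3 : R + ℓ (g x) ≤ 2 * R := by
      have := le_of_abs_le h1
      linarith
    have h4 : ∀ t, |t| ≤ 1 → |(R + ℓ (g x)) * t| ≤ 2 * R := by
      intro t ht
      rw [abs_mul, abs_of_pos h2]
      calc (R + ℓ (g x)) * |t| ≤ (R + ℓ (g x)) * 1 := mul_le_mul_of_nonneg_left ht h2.le
        _ ≤ 2 * R := by linarith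
    refine (norm_add_le _ _).trans (add_le_add ?_ ((norm_add_le _ _).trans (add_le_add ?_ ?_)))
    · exact (T.le_opNorm _).trans (mul_le_mul_of_nonneg_left (hB x hx) (norm_nonneg _))
    · rw [norm_smul]
      exact mul_le_mul_of_nonneg_right (h4 _ (Real.abs_cos_le_one _)) (norm_nonneg _)
    · rw [norm_smul]
      exact mul_le_mul_of_nonneg_right (h4 _ (Real.abs_sin_le_one _)) (norm_nonneg _)
  · intro x hx u h0
    have hDa : HasFDerivAt (fun x => R + ℓ (g x)) (ℓ.comp (fderiv ℝ g x)) x :=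
      (ℓ.hasFDerivAt.comp x (hd x hx).hasFDerivAt).const_add R
    have hDT : HasFDerivAt (fun x => T (g x)) (T.comp (fderiv ℝ g x)) x :=
      T.hasFDerivAt.comp x (hd x hx).hasFDerivAt
    have hG : HasFDerivAt (fun x => T (g x) + (((R + ℓ (g x)) * Real.cos (α x)) • e₁ +
        ((R + ℓ (g x)) * Real.sin (α x)) • e₂)) _ x :=
      hDT.add (((hDa.mul (hdα x hx).hasFDerivAt.cos).smul_const e₁).add
        ((hDa.mul (hdα x hx).hasFDerivAt.sin).smul_const e₂))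
    rw [hG.fderiv] at h0
    simp only [add_apply, ContinuousLinearMap.comp_apply, ContinuousLinearMap.smulRight_apply,
      smul_apply, smul_eq_mul] at h0
    set a := R + ℓ (g x) with ha
    set q := fderiv ℝ α x u with hq
    set p := ℓ (fderiv ℝ g x u) with hp
    set C := Real.cos (α x)
    set S := Real.sin (α x)
    have hCS : S ^ 2 + C ^ 2 = 1 := Real.sin_sq_add_cos_sq (α x)
    have i1 := congrArg (fun z => ⟪z, e₁⟫_ℝ) h0
    have i2 := congrArg (fun z => ⟪z, e₂⟫_ℝ) h0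
    simp only [inner_add_left, inner_smul_left, oT1, oT2, o11, o12, o21, o22, inner_zero_left,
      conj_trivial, mul_one, mul_zero, zero_add, add_zero] at i1 i2
    have hp0 : p = 0 := by linear_combination C * i1 + S * i2 - p * hCS
    have hq0 : a * q = 0 := by linear_combination C * i2 - S * i1 - a * q * hCS
    have hq1 : q = 0 := by
      rcases mul_eq_zero.1 hq0 with h | h
      · exact absurd h (hpos x hx).ne'
      · exact h
    refine ⟨hker _ ?_ hp0, hq1⟩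
    rw [hp0, hq1] at h0
    simpa using h0
  · intro x y h1 h2 h3
    simp only [h1, h2, h3]

/-- **Two circles.** -/
theorem exists_susp2 {F' : Type*} [NormedAddCommGroup F'] [NormedSpace ℝ F']
    [FiniteDimensional ℝ F'] {k : ℕ} (hk : Module.finrank ℝ F' = k + 1) {M : Set E}
    (hM : IsOpen M) {g : E → F'} {α β : E → ℝ} (hg : ContDiffOn ℝ ∞ g M)
    (hα : ContDiffOn ℝ ∞ α M) (hβ : ContDiffOn ℝ ∞ β M)
    {B : ℝ} (hB : ∀ x ∈ M, ‖g x‖ ≤ B) :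
    ∃ G : E → Eu (k + 3), ContDiffOn ℝ ∞ G M ∧
      (∀ x ∈ M, ∀ u, fderiv ℝ G x u = 0 →
        fderiv ℝ g x u = 0 ∧ fderiv ℝ α x u = 0 ∧ fderiv ℝ β x u = 0) ∧
      (∀ x y, g x = g y → Real.cos (α x) = Real.cos (α y) → Real.sin (α x) = Real.sin (α y) →
        Real.cos (β x) = Real.cos (β y) → Real.sin (β x) = Real.sin (β y) → G x = G y) := by
  obtain ⟨G1, a1, ⟨B', a2⟩, a3, a4⟩ := exists_susp1 hk hM hg hα hB
  obtain ⟨G, b1, -, b3, b4⟩ := exists_susp1 (k := k + 1) (by simp) hM a1 hβ a2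
  refine ⟨G, b1, ?_, ?_⟩
  · intro x hx u h
    obtain ⟨h1, h2⟩ := b3 x hx u h
    obtain ⟨h3, h4⟩ := a3 x hx u h1
    exact ⟨h3, h4, h2⟩
  · intro x y h1 h2 h3 h4 h5
    exact b4 x y (a4 x y h1 h2 h3) h4 h5

end general

end Pool.Agent.helper8.MC
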