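import Pool.Agent.helper98.MC.Gam
import Pool.Agent.helper98.MC.Susp

/-!
# Polar coordinates on `PS n Y W Z`
-/

open scoped Manifold ContDiff Topology InnerProductSpace

noncomputable section

namespace Pool.Agent.helper8.MC

variable {n : ℕ} {Y W Z : Type*} [NormedAddCommGroup Y] [InnerProductSpace ℝ Y]
  [NormedAddCommGroup W] [InnerProductSpace ℝ W] [NormedAddCommGroup Z] [InnerProductSpace ℝ Z]

/-- the Euclidean norm of the fibre variable `(om, z)` -/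
def vN (v : W × Z) : ℝ := Real.sqrt (‖v.1‖ ^ 2 + ‖v.2‖ ^ 2)

omit [InnerProductSpace ℝ W] [InnerProductSpace ℝ Z] in
theorem vN_sq (v : W × Z) : vN v ^ 2 = ‖v.1‖ ^ 2 + ‖v.2‖ ^ 2 :=
  Real.sq_sqrt (by positivity)

omit [InnerProductSpace ℝ W] [InnerProductSpace ℝ Z] in
theorem vN_nonneg (v : W × Z) : 0 ≤ vN v := Real.sqrt_nonneg _

omit [InnerProductSpace ℝ W] [InnerProductSpace ℝ Z] in
theorem vN_pos {v : W × Z} (hv : v ≠ 0) : 0 < vN v := by
  apply Real.sqrt_pos.2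
  by_contra h
  push Not at h
  have h1 : ‖v.1‖ ^ 2 = 0 := by nlinarith [sq_nonneg ‖v.1‖, sq_nonneg ‖v.2‖]
  have h2 : ‖v.2‖ ^ 2 = 0 := by nlinarith [sq_nonneg ‖v.1‖, sq_nonneg ‖v.2‖]
  exact hv (Prod.ext (by simpa using h1) (by simpa using h2))

omit [InnerProductSpace ℝ W] [InnerProductSpace ℝ Z] in
theorem vN_sq_pos {v : W × Z} (hv : v ≠ 0) : 0 < ‖v.1‖ ^ 2 + ‖v.2‖ ^ 2 := by
  rw [← vN_sq]
  exact pow_pos (vN_pos hv) 2

theorem vN_smul (c : ℝ) (v : W × Z) : vN (c • v) = |c| * vN v := by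
  unfold vN
  rw [Prod.smul_fst, Prod.smul_snd, norm_smul, norm_smul, mul_pow, mul_pow, ← mul_add,
    Real.sqrt_mul (sq_nonneg _), Real.sqrt_sq (norm_nonneg _), Real.norm_eq_abs]

/-- the derivative of the logarithm of the norm of `y` -/
theorem hasFDerivAt_logY {y : Y} (hy : y ≠ 0) :
    HasFDerivAt (fun y : Y => Real.log ‖y‖) ((‖y‖ ^ 2)⁻¹ • innerSL ℝ y) y := by
  have h1 : HasFDerivAt (fun y : Y => ‖y‖ ^ 2) (2 • innerSL ℝ y) y :=
    (hasStrictFDerivAt_norm_sq y).hasFDerivAt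
  have h2 : HasFDerivAt (fun y : Y => Real.log (‖y‖ ^ 2)) ((‖y‖ ^ 2)⁻¹ • (2 • innerSL ℝ y)) y :=
    h1.log (by positivity)
  have h3 : (fun y : Y => Real.log ‖y‖) = fun y => (1 / 2 : ℝ) * Real.log (‖y‖ ^ 2) := by
    funext y
    rw [Real.log_pow]
    push_cast
    ring
  rw [h3]
  refine (h2.const_mul (1 / 2)).congr_fderiv ?_
  ext u
  simp
  ring

theorem hasFDerivAt_logV {v : W × Z} (hv : v ≠ 0) :
    HasFDerivAt (fun v : W × Z => Real.log (vN v))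
      ((vN v ^ 2)⁻¹ • ((innerSL ℝ v.1).comp (ContinuousLinearMap.fst ℝ W Z) +
        (innerSL ℝ v.2).comp (ContinuousLinearMap.snd ℝ W Z))) v := by
  have h1 : HasFDerivAt (fun v : W × Z => ‖v.1‖ ^ 2)
      ((2 • innerSL ℝ v.1).comp (ContinuousLinearMap.fst ℝ W Z)) v :=
    (hasStrictFDerivAt_norm_sq v.1).hasFDerivAt.comp v hasFDerivAt_fst
  have h2 : HasFDerivAt (fun v : W × Z => ‖v.2‖ ^ 2)
      ((2 • innerSL ℝ v.2).comp (ContinuousLinearMap.snd ℝ W Z)) v :=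
    (hasStrictFDerivAt_norm_sq v.2).hasFDerivAt.comp v hasFDerivAt_snd
  have h3 : HasFDerivAt (fun v : W × Z => ‖v.1‖ ^ 2 + ‖v.2‖ ^ 2) _ v := h1.add h2
  have h4 := h3.log (vN_sq_pos hv).ne'
  have h5 : (fun v : W × Z => Real.log (vN v))
      = fun v => (1 / 2 : ℝ) * Real.log (‖v.1‖ ^ 2 + ‖v.2‖ ^ 2) := by
    funext v
    unfold vN
    rw [Real.log_sqrt (by positivity)]
    ring
  rw [h5]
  refine (h4.const_mul (1 / 2)).congr_fderiv ?_
  ext u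
  · simp [vN_sq]
    ring
  · simp [vN_sq]
    ring

/-- logarithm of the norm of the first variable -/
def al (p : PS n Y W Z) : ℝ := Real.log ‖p.1‖

/-- logarithm of the norm of the fibre variable -/
def be (p : PS n Y W Z) : ℝ := Real.log (vN p.2.2)

/-- normalization -/
def nrm (p : PS n Y W Z) : PS n Y W Z := (‖p.1‖⁻¹ • p.1, p.2.1, (vN p.2.2)⁻¹ • p.2.2)

theorem hasFDerivAt_al {p : PS n Y W Z} (hp : p ∈ gamOpen n Y W Z) :
    HasFDerivAt (al : PS n Y W Z → ℝ)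
      (((‖p.1‖ ^ 2)⁻¹ • innerSL ℝ p.1).comp (ContinuousLinearMap.fst ℝ Y (Eu n × W × Z))) p :=
  (hasFDerivAt_logY hp.1).comp p hasFDerivAt_fst

theorem fderiv_al {p : PS n Y W Z} (hp : p ∈ gamOpen n Y W Z) (u : PS n Y W Z) :
    fderiv ℝ (al : PS n Y W Z → ℝ) p u = (‖p.1‖ ^ 2)⁻¹ * ⟪p.1, u.1⟫_ℝ := by
  rw [(hasFDerivAt_al hp).fderiv]
  rfl

theorem hasFDerivAt_be {p : PS n Y W Z} (hp : p ∈ gamOpen n Y W Z) :
    HasFDerivAt (be : PS n Y W Z → ℝ)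
      (((vN p.2.2 ^ 2)⁻¹ • ((innerSL ℝ p.2.2.1).comp (ContinuousLinearMap.fst ℝ W Z) +
        (innerSL ℝ p.2.2.2).comp (ContinuousLinearMap.snd ℝ W Z))).comp
        ((ContinuousLinearMap.snd ℝ (Eu n) (W × Z)).comp
          (ContinuousLinearMap.snd ℝ Y (Eu n × W × Z)))) p := by
  have h1 : HasFDerivAt (fun p : PS n Y W Z => p.2.2)
      ((ContinuousLinearMap.snd ℝ (Eu n) (W × Z)).comp
          (ContinuousLinearMap.snd ℝ Y (Eu n × W × Z))) p :=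
    hasFDerivAt_snd.comp p hasFDerivAt_snd
  exact (hasFDerivAt_logV hp.2).comp p h1

theorem fderiv_be {p : PS n Y W Z} (hp : p ∈ gamOpen n Y W Z) (u : PS n Y W Z) :
    fderiv ℝ (be : PS n Y W Z → ℝ) p u =
      (vN p.2.2 ^ 2)⁻¹ * (⟪p.2.2.1, u.2.2.1⟫_ℝ + ⟪p.2.2.2, u.2.2.2⟫_ℝ) := by
  rw [(hasFDerivAt_be hp).fderiv]
  rfl

theorem contDiffOn_al : ContDiffOn ℝ ∞ (al : PS n Y W Z → ℝ) (gamOpen n Y W Z) := by
  intro p hp
  apply ContDiffAt.contDiffWithinAt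
  exact (contDiffAt_fst.norm ℝ hp.1).log (norm_ne_zero_iff.2 hp.1)

theorem contDiffOn_vN : ContDiffOn ℝ ∞ (fun p : PS n Y W Z => vN p.2.2) (gamOpen n Y W Z) := by
  intro p hp
  apply ContDiffAt.contDiffWithinAt
  unfold vN
  apply ContDiffAt.sqrt
  · have h1 : ContDiff ℝ ∞ (fun p : PS n Y W Z => p.2.2.1) := by fun_prop
    have h2 : ContDiff ℝ ∞ (fun p : PS n Y W Z => p.2.2.2) := by fun_prop
    exact ((h1.norm_sq ℝ).add (h2.norm_sq ℝ)).contDiffAt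
  · exact (vN_sq_pos hp.2).ne'

theorem contDiffOn_be : ContDiffOn ℝ ∞ (be : PS n Y W Z → ℝ) (gamOpen n Y W Z) :=
  contDiffOn_vN.log fun _ hp => (vN_pos hp.2).ne'

theorem contDiffOn_nrm : ContDiffOn ℝ ∞ (nrm : PS n Y W Z → PS n Y W Z) (gamOpen n Y W Z) := by
  have h1 : ContDiffOn ℝ ∞ (fun p : PS n Y W Z => ‖p.1‖) (gamOpen n Y W Z) := fun p hp =>
    (contDiffAt_fst.norm ℝ hp.1).contDiffWithinAt
  have h2 := h1.inv fun _ hp => norm_ne_zero_iff.2 hp.1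
  have h3 := (contDiffOn_vN (n := n) (Y := Y) (W := W) (Z := Z)).inv fun _ hp => (vN_pos hp.2).ne'
  exact (h2.smul contDiff_fst.contDiffOn).prodMk ((contDiff_snd.fst.contDiffOn).prodMk
    (h3.smul contDiff_snd.snd.contDiffOn))

theorem hasFDerivAt_nrm {p : PS n Y W Z} (hp : p ∈ gamOpen n Y W Z) :
    HasFDerivAt (nrm : PS n Y W Z → PS n Y W Z) (fderiv ℝ nrm p) p :=
  ((contDiffOn_nrm.contDiffAt (isOpen_gamOpen.mem_nhds hp)).differentiableAt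
    (by simp)).hasFDerivAt

theorem fderiv_nrm {p : PS n Y W Z} (hp : p ∈ gamOpen n Y W Z) (u : PS n Y W Z) :
    fderiv ℝ (nrm : PS n Y W Z → PS n Y W Z) p u =
      (‖p.1‖⁻¹ • (u.1 - fderiv ℝ (al : PS n Y W Z → ℝ) p u • p.1), u.2.1,
        (vN p.2.2)⁻¹ • (u.2.2 - fderiv ℝ (be : PS n Y W Z → ℝ) p u • p.2.2)) := by
  have hev : (nrm : PS n Y W Z → PS n Y W Z) =ᶠ[𝓝 p] fun p =>
      (Real.exp (-al p) • p.1, p.2.1, Real.exp (-be p) • p.2.2) := by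
    filter_upwards [isOpen_gamOpen.mem_nhds hp] with q hq
    unfold nrm al be
    rw [Real.exp_neg, Real.exp_neg, Real.exp_log (norm_pos_iff.2 hq.1), Real.exp_log (vN_pos hq.2)]
  have ha := ((contDiffOn_al (n := n) (Y := Y) (W := W) (Z := Z)).contDiffAt
    (isOpen_gamOpen.mem_nhds hp)).differentiableAt (by simp)
  have hb := ((contDiffOn_be (n := n) (Y := Y) (W := W) (Z := Z)).contDiffAt
    (isOpen_gamOpen.mem_nhds hp)).differentiableAt (by simp)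
  have h1 : HasFDerivAt (fun p : PS n Y W Z => Real.exp (-al p) • p.1) _ p :=
    (ha.hasFDerivAt.neg.exp).smul hasFDerivAt_fst
  have h2 : HasFDerivAt (fun p : PS n Y W Z => p.2.2)
      ((ContinuousLinearMap.snd ℝ (Eu n) (W × Z)).comp
          (ContinuousLinearMap.snd ℝ Y (Eu n × W × Z))) p :=
    hasFDerivAt_snd.comp p hasFDerivAt_snd
  have h3 : HasFDerivAt (fun p : PS n Y W Z => Real.exp (-be p) • p.2.2) _ p :=
    (hb.hasFDerivAt.neg.exp).smul h2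
  have h4 : HasFDerivAt (fun p : PS n Y W Z => p.2.1)
      ((ContinuousLinearMap.fst ℝ (Eu n) (W × Z)).comp
          (ContinuousLinearMap.snd ℝ Y (Eu n × W × Z))) p :=
    hasFDerivAt_fst.comp p hasFDerivAt_snd
  have h5 : HasFDerivAt (fun p : PS n Y W Z =>
      (Real.exp (-al p) • p.1, p.2.1, Real.exp (-be p) • p.2.2)) _ p := h1.prodMk (h4.prodMk h3)
  rw [hev.fderiv_eq, h5.fderiv]
  have e1 : Real.exp (-al p) = ‖p.1‖⁻¹ := by
    unfold al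
    rw [Real.exp_neg, Real.exp_log (norm_pos_iff.2 hp.1)]
  have e2 : Real.exp (-be p) = (vN p.2.2)⁻¹ := by
    unfold be
    rw [Real.exp_neg, Real.exp_log (vN_pos hp.2)]
  refine Prod.ext ?_ (Prod.ext ?_ ?_)
  · simp [e1, smul_smul, sub_eq_add_neg]
  · rfl
  · simp [e2, smul_smul, sub_eq_add_neg]

/-! ### Normalized points -/

theorem norm_nrm_fst {p : PS n Y W Z} (hp : p ∈ gamOpen n Y W Z) : ‖(nrm p).1‖ = 1 := by
  unfold nrm
  rw [norm_smul, norm_inv, norm_norm, inv_mul_cancel₀ (norm_ne_zero_iff.2 hp.1)]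

theorem vN_nrm {p : PS n Y W Z} (hp : p ∈ gamOpen n Y W Z) : vN (nrm p).2.2 = 1 := by
  unfold nrm
  rw [vN_smul, abs_of_pos (inv_pos.2 (vN_pos hp.2)), inv_mul_cancel₀ (vN_pos hp.2).ne']

theorem vN_nrm_sq {p : PS n Y W Z} (hp : p ∈ gamOpen n Y W Z) :
    ‖(nrm p).2.2.1‖ ^ 2 + ‖(nrm p).2.2.2‖ ^ 2 = 1 := by
  rw [← vN_sq, vN_nrm hp, one_pow]

/-- the tangential directions -/
theorem nrm_tangent {p u : PS n Y W Z} (hp : p ∈ gamOpen n Y W Z)
    (ha : fderiv ℝ (al : PS n Y W Z → ℝ) p u = 0) (hb : fderiv ℝ (be : PS n Y W Z → ℝ) p u = 0) :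
    ⟪(nrm p).1, (fderiv ℝ nrm p u).1⟫_ℝ = 0 ∧
    ⟪(nrm p).2.2.1, (fderiv ℝ nrm p u).2.2.1⟫_ℝ +
      ⟪(nrm p).2.2.2, (fderiv ℝ nrm p u).2.2.2⟫_ℝ = 0 ∧
    (fderiv ℝ nrm p u = 0 → u = 0) := by
  have hy := norm_pos_iff.2 hp.1
  have hv := vN_pos hp.2
  have h1 : ⟪p.1, u.1⟫_ℝ = 0 := by
    rw [fderiv_al hp] at ha
    rcases mul_eq_zero.1 ha with h | h
    · exact absurd h (inv_ne_zero (pow_ne_zero 2 hy.ne'))
    · exact h
  have h2 : ⟪p.2.2.1, u.2.2.1⟫_ℝ + ⟪p.2.2.2, u.2.2.2⟫_ℝ = 0 := by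
    rw [fderiv_be hp] at hb
    rcases mul_eq_zero.1 hb with h | h
    · exact absurd h (inv_ne_zero (pow_ne_zero 2 hv.ne'))
    · exact h
  rw [fderiv_nrm hp, ha, hb]
  simp only [zero_smul, sub_zero, nrm, Prod.smul_fst, Prod.smul_snd]
  refine ⟨?_, ?_, ?_⟩
  · rw [inner_smul_left, inner_smul_right, h1]
    simp
  · simp only [inner_smul_left, inner_smul_right, conj_trivial]
    linear_combination (vN p.2.2)⁻¹ * (vN p.2.2)⁻¹ * h2
  · intro h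
    have e1 : ‖p.1‖⁻¹ • u.1 = 0 := congrArg Prod.fst h
    have e2 : u.2.1 = 0 := congrArg (fun q : PS n Y W Z => q.2.1) h
    have e3 : (vN p.2.2)⁻¹ • u.2.2 = 0 := congrArg (fun q : PS n Y W Z => q.2.2) h
    rw [smul_eq_zero_iff_right (inv_ne_zero hy.ne')] at e1
    rw [smul_eq_zero_iff_right (inv_ne_zero hv.ne')] at e3
    exact Prod.ext e1 (Prod.ext e2 e3)

/-- the radial direction of the first variable -/
theorem radial_fst {p : PS n Y W Z} (hp : p ∈ gamOpen n Y W Z) :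
    fderiv ℝ (al : PS n Y W Z → ℝ) p (p.1, 0, 0) = 1 ∧
    fderiv ℝ (be : PS n Y W Z → ℝ) p (p.1, 0, 0) = 0 ∧
    fderiv ℝ (nrm : PS n Y W Z → PS n Y W Z) p (p.1, 0, 0) = 0 := by
  have hy := norm_pos_iff.2 hp.1
  have h1 : fderiv ℝ (al : PS n Y W Z → ℝ) p (p.1, 0, 0) = 1 := by
    rw [fderiv_al hp]
    simp only [real_inner_self_eq_norm_sq]
    exact inv_mul_cancel₀ (pow_ne_zero 2 hy.ne')
  have h2 : fderiv ℝ (be : PS n Y W Z → ℝ) p (p.1, 0, 0) = 0 := by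
    rw [fderiv_be hp]
    simp
  refine ⟨h1, h2, ?_⟩
  rw [fderiv_nrm hp, h1, h2]
  simp

/-- the radial direction of the fibre variable -/
theorem radial_snd {p : PS n Y W Z} (hp : p ∈ gamOpen n Y W Z) :
    fderiv ℝ (al : PS n Y W Z → ℝ) p (0, 0, p.2.2) = 0 ∧
    fderiv ℝ (be : PS n Y W Z → ℝ) p (0, 0, p.2.2) = 1 ∧
    fderiv ℝ (nrm : PS n Y W Z → PS n Y W Z) p (0, 0, p.2.2) = 0 := by
  have hv := vN_pos hp.2
  have h1 : fderiv ℝ (al : PS n Y W Z → ℝ) p (0, 0, p.2.2) = 0 := by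
    rw [fderiv_al hp]
    simp
  have h2 : fderiv ℝ (be : PS n Y W Z → ℝ) p (0, 0, p.2.2) = 1 := by
    rw [fderiv_be hp]
    simp only [real_inner_self_eq_norm_sq]
    rw [← vN_sq]
    exact inv_mul_cancel₀ (pow_ne_zero 2 hv.ne')
  refine ⟨h1, h2, ?_⟩
  rw [fderiv_nrm hp, h1, h2]
  simp

/-! ### The group -/

theorem vN_gamAct (g : Gam n) (p : PS n Y W Z) :
    vN (gamAct g p).2.2 = Gam.ex g.l * vN p.2.2 := by
  have h1 : (gamAct g p).2.2 = Gam.ex g.l • (g.sg • p.2.2.1, p.2.2.2) := by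
    rw [gamAct_apply]
    simp [smul_smul]
  rw [h1, vN_smul, abs_of_pos (Gam.ex_pos _)]
  congr 1
  unfold vN
  rw [norm_smul, Real.norm_eq_abs, g.abs_sg, one_mul]

theorem al_gamAct (g : Gam n) {p : PS n Y W Z} (hp : p ∈ gamOpen n Y W Z) :
    al (gamAct g p) = al p + g.i * (2 * Real.pi) := by
  unfold al
  rw [norm_gamAct_fst, Real.log_mul (Gam.ex_pos _).ne' (norm_ne_zero_iff.2 hp.1)]
  unfold Gam.ex
  rw [Real.log_exp]
  ring

theorem be_gamAct (g : Gam n) {p : PS n Y W Z} (hp : p ∈ gamOpen n Y W Z) :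
    be (gamAct g p) = be p + g.l * (2 * Real.pi) := by
  unfold be
  rw [vN_gamAct, Real.log_mul (Gam.ex_pos _).ne' (vN_pos hp.2).ne']
  unfold Gam.ex
  rw [Real.log_exp]
  ring

theorem cos_al_gamAct (g : Gam n) {p : PS n Y W Z} (hp : p ∈ gamOpen n Y W Z) :
    Real.cos (al (gamAct g p)) = Real.cos (al p) := by
  rw [al_gamAct g hp, Real.cos_add_int_mul_two_pi]

theorem sin_al_gamAct (g : Gam n) {p : PS n Y W Z} (hp : p ∈ gamOpen n Y W Z) :
    Real.sin (al (gamAct g p)) = Real.sin (al p) := by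
  rw [al_gamAct g hp, Real.sin_add_int_mul_two_pi]

theorem cos_be_gamAct (g : Gam n) {p : PS n Y W Z} (hp : p ∈ gamOpen n Y W Z) :
    Real.cos (be (gamAct g p)) = Real.cos (be p) := by
  rw [be_gamAct g hp, Real.cos_add_int_mul_two_pi]

theorem sin_be_gamAct (g : Gam n) {p : PS n Y W Z} (hp : p ∈ gamOpen n Y W Z) :
    Real.sin (be (gamAct g p)) = Real.sin (be p) := by
  rw [be_gamAct g hp, Real.sin_add_int_mul_two_pi]

/-- the normalized action -/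
theorem nrm_gamAct (g : Gam n) (p : PS n Y W Z) :
    nrm (gamAct g p) = (g.sg • (nrm p).1, g.sg • (nrm p).2.1 + per g.k,
      g.sg • (nrm p).2.2.1, (nrm p).2.2.2) := by
  have hi := (Gam.ex_pos g.i).ne'
  have hl := (Gam.ex_pos g.l).ne'
  unfold nrm
  rw [norm_gamAct_fst, vN_gamAct, gamAct_apply]
  refine Prod.ext ?_ (Prod.ext ?_ (Prod.ext ?_ ?_))
  · simp only [smul_smul]
    congr 1
    rw [mul_inv]
    field_simp
  · rfl
  · simp only [Prod.smul_fst, smul_smul]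
    congr 1
    rw [mul_inv]
    field_simp
  · simp only [Prod.smul_snd, smul_smul]
    congr 1
    rw [mul_inv]
    field_simp

end Pool.Agent.helper8.MC
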