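import Pool.Agent.helper8.MC.Torus

/-!
# The group `Gam n` acting on an open subset of `Y × ℝⁿ × W × Z`
-/

open scoped Manifold ContDiff Topology InnerProductSpace

noncomputable section

namespace Pool.Agent.helper8.MC

/-- The group `(ℤ × ℤ × ℤⁿ) ⋊ {±1}`, the sign acting by `-1` on `ℤⁿ` and trivially on the other
factors. -/
@[ext]
structure Gam (n : ℕ) where
  /-- exponent of the scaling of the first factor -/
  i : ℤ
  /-- exponent of the scaling of the last two factors -/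
  l : ℤ
  /-- translation of the second factor -/
  k : Fin n → ℤ
  /-- the sign -/
  e : ℤˣ

namespace Gam

variable {n : ℕ}

instance : One (Gam n) := ⟨⟨0, 0, 0, 1⟩⟩

instance : Mul (Gam n) :=
  ⟨fun a b => ⟨a.i + b.i, a.l + b.l, fun j => (a.e : ℤ) * b.k j + a.k j, a.e * b.e⟩⟩

instance : Inv (Gam n) := ⟨fun a => ⟨-a.i, -a.l, fun j => -((a.e : ℤ) * a.k j), a.e⟩⟩

@[simp] theorem one_i : (1 : Gam n).i = 0 := rfl
@[simp] theorem one_l : (1 : Gam n).l = 0 := rfl
@[simp] theorem one_k : (1 : Gam n).k = 0 := rfl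
@[simp] theorem one_e : (1 : Gam n).e = 1 := rfl
@[simp] theorem mul_i (a b : Gam n) : (a * b).i = a.i + b.i := rfl
@[simp] theorem mul_l (a b : Gam n) : (a * b).l = a.l + b.l := rfl
@[simp] theorem mul_k (a b : Gam n) : (a * b).k = fun j => (a.e : ℤ) * b.k j + a.k j := rfl
@[simp] theorem mul_e (a b : Gam n) : (a * b).e = a.e * b.e := rfl
@[simp] theorem inv_i (a : Gam n) : (a⁻¹).i = -a.i := rfl
@[simp] theorem inv_l (a : Gam n) : (a⁻¹).l = -a.l := rfl
@[simp] theorem inv_k (a : Gam n) : (a⁻¹).k = fun j => -((a.e : ℤ) * a.k j) := rfl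
@[simp] theorem inv_e (a : Gam n) : (a⁻¹).e = a.e := rfl

instance : Group (Gam n) :=
  Group.ofLeftAxioms
    (by
      intro a b c
      ext
      · simp [add_assoc]
      · simp [add_assoc]
      · simp; ring
      · simp [mul_assoc])
    (by
      intro a
      ext <;> simp)
    (by
      intro a
      ext
      · simp
      · simp
      · simp
      · rcases Int.units_eq_one_or a.e with h | h <;> simp [h])

/-- the real sign -/
def sg (g : Gam n) : ℝ := ((g.e : ℤ) : ℝ)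

theorem sg_eq (g : Gam n) : g.sg = 1 ∨ g.sg = -1 := by
  unfold sg
  rcases Int.units_eq_one_or g.e with h | h <;> simp [h]

theorem sg_ne_zero (g : Gam n) : g.sg ≠ 0 := by
  rcases g.sg_eq with h | h <;> rw [h] <;> norm_num

theorem abs_sg (g : Gam n) : |g.sg| = 1 := by
  rcases g.sg_eq with h | h <;> rw [h] <;> norm_num

@[simp] theorem sg_one : (1 : Gam n).sg = 1 := by simp [sg]

theorem sg_mul (a b : Gam n) : (a * b).sg = a.sg * b.sg := by simp [sg]

/-- the scaling factor of the first coordinate -/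
def ex (t : ℤ) : ℝ := Real.exp (2 * Real.pi * t)

theorem ex_pos (t : ℤ) : 0 < ex t := Real.exp_pos _

@[simp] theorem ex_zero : ex 0 = 1 := by simp [ex]

theorem ex_add (s t : ℤ) : ex (s + t) = ex s * ex t := by
  unfold ex
  rw [← Real.exp_add]
  push_cast
  ring_nf

theorem ex_injective : Function.Injective ex := by
  intro s t h
  have h1 := Real.exp_injective h
  have h2 : (s : ℝ) = t := by
    have := Real.pi_pos
    field_simp at h1
    exact h1
  exact_mod_cast h2

theorem le_ex (t : ℤ) : (t : ℝ) ≤ ex t := by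
  unfold ex
  rcases le_or_gt 0 (t : ℝ) with h | h
  · have h1 := Real.add_one_le_exp (2 * Real.pi * t)
    have h2 := Real.pi_gt_three
    nlinarith
  · exact h.le.trans (Real.exp_pos _).le

/-- the sign element -/
def tau (n : ℕ) : Gam n := ⟨0, 0, 0, -1⟩

@[simp] theorem sg_tau : (tau n).sg = -1 := by simp [tau, sg]

end Gam

/-! ### The affine action on the product -/

section product

variable {n : ℕ} {Y W Z : Type*} [NormedAddCommGroup Y] [NormedSpace ℝ Y]
  [NormedAddCommGroup W] [NormedSpace ℝ W] [NormedAddCommGroup Z] [NormedSpace ℝ Z]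

variable (n Y W Z) in
/-- The product space. -/
abbrev PS : Type _ := Y × Eu n × W × Z

variable (n Y W Z) in
/-- diagonal maps -/
def diag (a b c d : ℝ) : PS n Y W Z →L[ℝ] PS n Y W Z :=
  (a • ContinuousLinearMap.id ℝ Y).prodMap ((b • ContinuousLinearMap.id ℝ (Eu n)).prodMap
    ((c • ContinuousLinearMap.id ℝ W).prodMap (d • ContinuousLinearMap.id ℝ Z)))

@[simp] theorem diag_apply (a b c d : ℝ) (p : PS n Y W Z) :
    diag n Y W Z a b c d p = (a • p.1, b • p.2.1, c • p.2.2.1, d • p.2.2.2) := rfl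

theorem det_diag [FiniteDimensional ℝ Y] [FiniteDimensional ℝ W] [FiniteDimensional ℝ Z]
    (a b c d : ℝ) :
    LinearMap.det (diag n Y W Z a b c d : PS n Y W Z →ₗ[ℝ] PS n Y W Z)
      = a ^ Module.finrank ℝ Y * (b ^ n * (c ^ Module.finrank ℝ W * d ^ Module.finrank ℝ Z)) := by
  have h : (diag n Y W Z a b c d : PS n Y W Z →ₗ[ℝ] PS n Y W Z)
      = (a • LinearMap.id (R := ℝ) (M := Y)).prodMap ((b • LinearMap.id (R := ℝ) (M := Eu n)).prodMap
        ((c • LinearMap.id (R := ℝ) (M := W)).prodMap (d • LinearMap.id (R := ℝ) (M := Z)))) := rfl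
  rw [h, LinearMap.det_prodMap, LinearMap.det_prodMap, LinearMap.det_prodMap,
    LinearMap.det_smul, LinearMap.det_smul, LinearMap.det_smul, LinearMap.det_smul]
  simp

variable (Y W Z) in
/-- the linear part of the action of `g` -/
def gamLin (g : Gam n) : PS n Y W Z →L[ℝ] PS n Y W Z :=
  diag n Y W Z (g.sg * Gam.ex g.i) g.sg (Gam.ex g.l * g.sg) (Gam.ex g.l)

theorem gamLin_apply (g : Gam n) (p : PS n Y W Z) : gamLin Y W Z g p =
    ((g.sg * Gam.ex g.i) • p.1, g.sg • p.2.1, (Gam.ex g.l * g.sg) • p.2.2.1,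
      Gam.ex g.l • p.2.2.2) := rfl

variable (Y W Z) in
/-- the translation part of the action of `g` -/
def gamTr (g : Gam n) : PS n Y W Z := (0, per g.k, 0, 0)

/-- the affine map of `g` -/
def gamAct (g : Gam n) (p : PS n Y W Z) : PS n Y W Z := gamLin Y W Z g p + gamTr Y W Z g

theorem gamAct_apply (g : Gam n) (p : PS n Y W Z) : gamAct g p =
    ((g.sg * Gam.ex g.i) • p.1, g.sg • p.2.1 + per g.k, (Gam.ex g.l * g.sg) • p.2.2.1,
      Gam.ex g.l • p.2.2.2) := by
  unfold gamAct gamTr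
  rw [gamLin_apply]
  simp

theorem per_add {n : ℕ} (k k' : Fin n → ℤ) : per (fun j => k j + k' j) = per k + per k' := by
  ext j
  simp [per]
  ring

theorem per_smul {n : ℕ} (e : ℤ) (k : Fin n → ℤ) : per (fun j => e * k j) = (e : ℝ) • per k := by
  ext j
  simp [per]
  ring

theorem per_zero {n : ℕ} : per (0 : Fin n → ℤ) = 0 := by
  ext j
  simp [per]

theorem per_injective {n : ℕ} : Function.Injective (per : (Fin n → ℤ) → Eu n) := by
  intro k k' h
  funext j
  have h1 : per k j = per k' j := by rw [h]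
  simp only [per] at h1
  have h2 : (k j : ℝ) = k' j := by
    have := Real.pi_pos
    field_simp at h1
    exact h1
  exact_mod_cast h2

theorem gamAct_one (p : PS n Y W Z) : gamAct (1 : Gam n) p = p := by
  rw [gamAct_apply]
  simp [per_zero]

theorem gamLin_mul (g h : Gam n) (p : PS n Y W Z) :
    gamLin Y W Z (g * h) p = gamLin Y W Z g (gamLin Y W Z h p) := by
  rw [gamLin_apply, gamLin_apply, gamLin_apply]
  simp only [Gam.sg_mul, Gam.mul_i, Gam.mul_l, Gam.ex_add, smul_smul]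
  refine Prod.ext ?_ (Prod.ext ?_ (Prod.ext ?_ ?_)) <;> simp only <;> congr 1 <;> ring

theorem gamAct_mul (g h : Gam n) (p : PS n Y W Z) :
    gamAct (g * h) p = gamAct g (gamAct h p) := by
  unfold gamAct
  rw [gamLin_mul, map_add]
  rw [add_assoc]
  congr 1
  have h1 : gamTr Y W Z (g * h) = gamLin Y W Z g (gamTr Y W Z h) + gamTr Y W Z g := by
    rw [gamLin_apply]
    unfold gamTr
    refine Prod.ext ?_ (Prod.ext ?_ (Prod.ext ?_ ?_))
    · simp
    · simp only [Prod.snd_add, Prod.fst_add, Gam.mul_k]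
      rw [per_add (fun j => (g.e : ℤ) * h.k j) g.k, per_smul]
      rfl
    · simp
    · simp
  rw [h1]

variable (n Y W Z) in
/-- the open set on which the group acts freely -/
def gamOpen : Set (PS n Y W Z) := {p | p.1 ≠ 0 ∧ p.2.2 ≠ 0}

omit [NormedSpace ℝ Y] [NormedSpace ℝ W] [NormedSpace ℝ Z] in
theorem isOpen_gamOpen : IsOpen (gamOpen n Y W Z) := by
  apply IsOpen.inter
  · exact isOpen_ne_fun continuous_fst continuous_const
  · exact isOpen_ne_fun (continuous_snd.comp continuous_snd) continuous_const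

theorem gamAct_mem (g : Gam n) {p : PS n Y W Z} (hp : p ∈ gamOpen n Y W Z) :
    gamAct g p ∈ gamOpen n Y W Z := by
  obtain ⟨h1, h2⟩ := hp
  rw [gamAct_apply]
  refine ⟨?_, ?_⟩
  · simp only
    exact smul_ne_zero (mul_ne_zero g.sg_ne_zero (Gam.ex_pos _).ne') h1
  · simp only
    intro h3
    apply h2
    have h4 : (Gam.ex g.l * g.sg) • p.2.2.1 = 0 := congrArg Prod.fst h3
    have h5 : Gam.ex g.l • p.2.2.2 = 0 := congrArg Prod.snd h3
    rw [smul_eq_zero_iff_right (mul_ne_zero (Gam.ex_pos _).ne' g.sg_ne_zero)] at h4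
    rw [smul_eq_zero_iff_right (Gam.ex_pos _).ne'] at h5
    exact Prod.ext h4 h5

/-- norms under the action -/
theorem norm_gamAct_fst (g : Gam n) (p : PS n Y W Z) :
    ‖(gamAct g p).1‖ = Gam.ex g.i * ‖p.1‖ := by
  rw [gamAct_apply]
  simp only [norm_smul, norm_mul, Real.norm_eq_abs, g.abs_sg, one_mul, abs_of_pos (Gam.ex_pos _)]

theorem norm_gamAct_snd (g : Gam n) (p : PS n Y W Z) :
    ‖(gamAct g p).2.2‖ = Gam.ex g.l * ‖p.2.2‖ := by
  rw [gamAct_apply]
  simp only [Prod.norm_def, norm_smul, norm_mul, Real.norm_eq_abs, g.abs_sg, mul_one,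
    abs_of_pos (Gam.ex_pos _)]
  rw [mul_max_of_nonneg _ _ (Gam.ex_pos _).le]

/-- the action is free -/
theorem gamAct_free (g : Gam n) {p : PS n Y W Z} (hp : p ∈ gamOpen n Y W Z)
    (h : gamAct g p = p) : g = 1 := by
  obtain ⟨h1, h2⟩ := hp
  have hi : g.i = 0 := by
    have h3 := norm_gamAct_fst g p
    rw [h] at h3
    have h4 : Gam.ex g.i = 1 := by
      have h5 : (Gam.ex g.i - 1) * ‖p.1‖ = 0 := by linarith
      rcases mul_eq_zero.1 h5 with h6 | h6
      · linarith
      · exact absurd (norm_eq_zero.1 h6) h1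
    exact Gam.ex_injective (by rw [h4, Gam.ex_zero])
  have hl : g.l = 0 := by
    have h3 := norm_gamAct_snd g p
    rw [h] at h3
    have h4 : Gam.ex g.l = 1 := by
      have h5 : (Gam.ex g.l - 1) * ‖p.2.2‖ = 0 := by linarith
      rcases mul_eq_zero.1 h5 with h6 | h6
      · linarith
      · exact absurd (norm_eq_zero.1 h6) h2
    exact Gam.ex_injective (by rw [h4, Gam.ex_zero])
  rw [gamAct_apply] at h
  have hy := congrArg Prod.fst h
  have hs := congrArg (fun q : PS n Y W Z => q.2.1) h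
  simp only [hi, Gam.ex_zero, mul_one] at hy hs
  have he : g.sg = 1 := by
    rcases g.sg_eq with h3 | h3
    · exact h3
    · exfalso
      rw [h3] at hy
      apply h1
      have h4 : (2 : ℝ) • p.1 = 0 := by
        have h5 : p.1 - (-1 : ℝ) • p.1 = 0 := by rw [hy, sub_self]
        calc (2 : ℝ) • p.1 = p.1 - (-1 : ℝ) • p.1 := by
              rw [two_smul, neg_smul, one_smul, sub_neg_eq_add]
          _ = 0 := h5
      exact (smul_eq_zero_iff_right two_ne_zero).1 h4
  have hee : g.e = 1 := by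
    rcases Int.units_eq_one_or g.e with h3 | h3
    · exact h3
    · exfalso
      rw [Gam.sg, h3] at he
      norm_num at he
  have hk : g.k = 0 := by
    rw [he, one_smul] at hs
    have h3 : per g.k = per 0 := by
      rw [per_zero]
      exact left_eq_add.1 hs.symm
    exact per_injective h3
  exact Gam.ext hi hl hk hee

/-- a finite set of group elements -/
theorem gam_finite (B : ℤ) : {g : Gam n | |g.i| ≤ B ∧ |g.l| ≤ B ∧ ∀ j, |g.k j| ≤ B}.Finite := by
  have h1 : (Set.Icc (-B) B ×ˢ (Set.Icc (-B) B ×ˢ ((Set.pi Set.univ fun _ : Fin n =>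
      Set.Icc (-B) B) ×ˢ (Set.univ : Set ℤˣ)))).Finite := by
    refine (Set.finite_Icc _ _).prod ((Set.finite_Icc _ _).prod (Set.Finite.prod ?_
      Set.finite_univ))
    exact Set.Finite.pi fun _ => Set.finite_Icc _ _
  refine Set.Finite.of_injOn (f := fun g : Gam n => (g.i, g.l, g.k, g.e)) ?_ ?_ h1
  · intro g hg
    obtain ⟨h2, h3, h4⟩ := hg
    exact ⟨abs_le.1 h2, abs_le.1 h3, fun j _ => abs_le.1 (h4 j), Set.mem_univ _⟩
  · intro g _ g' _ h
    simp only [Prod.mk.injEq] at h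
    exact Gam.ext h.1 h.2.1 h.2.2.1 h.2.2.2

/-- bound of an integer from two inequalities -/
theorem abs_le_of_ex {δ R : ℝ} (hδ : 0 < δ) {t : ℤ} {u v : ℝ} (hu : δ ≤ u) (hu' : u ≤ R)
    (hv : δ ≤ v) (hv' : v ≤ R) (h : v = Gam.ex t * u) : |t| ≤ ⌈R / δ⌉ := by
  have h1 : Gam.ex t ≤ R / δ := by
    rw [le_div_iff₀ hδ]
    have := Gam.ex_pos t
    nlinarith
  have h2 : Gam.ex (-t) ≤ R / δ := by
    rw [le_div_iff₀ hδ]
    have h3 : Gam.ex (-t) * Gam.ex t = 1 := by rw [← Gam.ex_add]; simp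
    have h4 := Gam.ex_pos (-t)
    have h5 : Gam.ex (-t) * v = u := by rw [h, ← mul_assoc, h3, one_mul]
    nlinarith
  have h3 := (Gam.le_ex t).trans h1
  have h4 := (Gam.le_ex (-t)).trans h2
  have h5 : t ≤ ⌈R / δ⌉ := by exact_mod_cast h3.trans (Int.le_ceil _)
  have h6 : -t ≤ ⌈R / δ⌉ := by exact_mod_cast h4.trans (Int.le_ceil _)
  exact abs_le.2 ⟨by linarith, h5⟩

omit [NormedSpace ℝ Y] [NormedSpace ℝ W] [NormedSpace ℝ Z] in
/-- bounds on a compact subset -/
theorem compact_bounds {A : Set (PS n Y W Z)} (hA : IsCompact A) (hA' : A ⊆ gamOpen n Y W Z) :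
    ∃ δ R : ℝ, 0 < δ ∧ ∀ p ∈ A, δ ≤ ‖p.1‖ ∧ ‖p.1‖ ≤ R ∧ δ ≤ ‖p.2.2‖ ∧ ‖p.2.2‖ ≤ R ∧
      ‖p.2.1‖ ≤ R := by
  rcases A.eq_empty_or_nonempty with h | h
  · exact ⟨1, 1, one_pos, by simp [h]⟩
  · have c1 : ContinuousOn (fun p : PS n Y W Z => ‖p.1‖) A := by fun_prop
    have c2 : ContinuousOn (fun p : PS n Y W Z => ‖p.2.2‖) A := by fun_prop
    have c3 : ContinuousOn (fun p : PS n Y W Z => ‖p.2.1‖) A := by fun_prop
    obtain ⟨a1, ha1, hb1⟩ := hA.exists_isMinOn h c1
    obtain ⟨a2, ha2, hb2⟩ := hA.exists_isMinOn h c2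
    obtain ⟨R1, hR1⟩ := hA.exists_bound_of_continuousOn c1
    obtain ⟨R2, hR2⟩ := hA.exists_bound_of_continuousOn c2
    obtain ⟨R3, hR3⟩ := hA.exists_bound_of_continuousOn c3
    simp only [norm_norm] at hR1 hR2 hR3
    refine ⟨min ‖a1.1‖ ‖a2.2.2‖, max R1 (max R2 R3), ?_, ?_⟩
    · exact lt_min (norm_pos_iff.2 (hA' ha1).1) (norm_pos_iff.2 (hA' ha2).2)
    · intro p hp
      exact ⟨(min_le_left _ _).trans (hb1 hp), (hR1 p hp).trans (le_max_left _ _),
        (min_le_right _ _).trans (hb2 hp),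
        (hR2 p hp).trans ((le_max_left _ _).trans (le_max_right _ _)),
        (hR3 p hp).trans ((le_max_right _ _).trans (le_max_right _ _))⟩

/-- the action is properly discontinuous -/
theorem gamAct_pd {A B : Set (PS n Y W Z)} (hA : IsCompact A) (hB : IsCompact B)
    (hA' : A ⊆ gamOpen n Y W Z) (hB' : B ⊆ gamOpen n Y W Z) :
    {g : Gam n | ∃ p ∈ A, gamAct g p ∈ B}.Finite := by
  obtain ⟨δ, R, hδ, h⟩ := compact_bounds (hA.union hB) (Set.union_subset hA' hB')
  refine (gam_finite (n := n) (max ⌈R / δ⌉ ⌈R⌉)).subset ?_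
  rintro g ⟨p, hp, hgp⟩
  obtain ⟨a1, a2, a3, a4, a5⟩ := h p (Or.inl hp)
  obtain ⟨b1, b2, b3, b4, b5⟩ := h _ (Or.inr hgp)
  refine ⟨?_, ?_, ?_⟩
  · exact (abs_le_of_ex hδ a1 a2 b1 b2 (norm_gamAct_fst g p)).trans (le_max_left _ _)
  · exact (abs_le_of_ex hδ a3 a4 b3 b4 (norm_gamAct_snd g p)).trans (le_max_left _ _)
  · intro j
    have h1 : (gamAct g p).2.1 = g.sg • p.2.1 + per g.k := by rw [gamAct_apply]
    rw [h1] at b5
    have h2 : ‖per g.k‖ ≤ R + R := by
      have h3 : per g.k = (g.sg • p.2.1 + per g.k) - g.sg • p.2.1 := by abel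
      rw [h3]
      refine (norm_sub_le _ _).trans (add_le_add b5 ?_)
      rw [norm_smul, Real.norm_eq_abs, g.abs_sg, one_mul]
      exact a5
    have h4 : |per g.k j| ≤ R + R := (PiLp.norm_apply_le _ _).trans h2
    have h5 : |(g.k j : ℝ)| ≤ R := by
      simp only [per, abs_mul, Nat.abs_ofNat, abs_of_pos Real.pi_pos] at h4
      have h6 := Real.pi_gt_three
      have h7 := abs_nonneg (g.k j : ℝ)
      nlinarith
    have h6 : |g.k j| ≤ ⌈R⌉ := by
      have h7 := h5.trans (Int.le_ceil R)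
      exact_mod_cast h7
    exact h6.trans (le_max_right _ _)

variable (n Y W Z) in
/-- a compact set whose translates cover -/
def gamK : Set (PS n Y W Z) :=
  {p | (1 ≤ ‖p.1‖ ∧ ‖p.1‖ ≤ Gam.ex 1) ∧ p.2.1 ∈ cube n ∧ 1 ≤ ‖p.2.2‖ ∧ ‖p.2.2‖ ≤ Gam.ex 1}

omit [NormedSpace ℝ Y] [NormedSpace ℝ W] [NormedSpace ℝ Z] in
theorem gamK_subset : gamK n Y W Z ⊆ gamOpen n Y W Z := by
  rintro p ⟨⟨h1, -⟩, -, h2, -⟩
  refine ⟨?_, ?_⟩
  · intro h
    rw [h, norm_zero] at h1
    linarith
  · intro h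
    rw [h, norm_zero] at h2
    linarith

theorem isCompact_gamK [FiniteDimensional ℝ Y] [FiniteDimensional ℝ W] [FiniteDimensional ℝ Z] :
    IsCompact (gamK n Y W Z) := by
  have : ProperSpace Y := FiniteDimensional.proper ℝ Y
  have : ProperSpace W := FiniteDimensional.proper ℝ W
  have : ProperSpace Z := FiniteDimensional.proper ℝ Z
  have h1 : IsCompact (Metric.closedBall (0 : Y) (Gam.ex 1) ×ˢ (cube n ×ˢ
      Metric.closedBall (0 : W × Z) (Gam.ex 1))) :=
    (isCompact_closedBall _ _).prod ((cube_compact n).prod (isCompact_closedBall _ _))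
  have h2 : gamK n Y W Z = (Metric.closedBall (0 : Y) (Gam.ex 1) ×ˢ (cube n ×ˢ
      Metric.closedBall (0 : W × Z) (Gam.ex 1))) ∩
      ({p : PS n Y W Z | 1 ≤ ‖p.1‖} ∩ {p : PS n Y W Z | 1 ≤ ‖p.2.2‖}) := by
    ext p
    simp only [gamK, Set.mem_ofPred_eq, Set.mem_inter_iff, Set.mem_prod, mem_closedBall_zero_iff]
    tauto
  rw [h2]
  refine h1.inter_right (IsClosed.inter ?_ ?_)
  · exact isClosed_le continuous_const continuous_fst.norm
  · exact isClosed_le continuous_const (continuous_snd.comp continuous_snd).norm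

/-- scaling into the shell -/
theorem exists_ex {u : ℝ} (hu : 0 < u) : ∃ t : ℤ, 1 ≤ Gam.ex t * u ∧ Gam.ex t * u ≤ Gam.ex 1 := by
  have hpi := Real.pi_pos
  refine ⟨-⌊Real.log u / (2 * Real.pi)⌋, ?_⟩
  set q := Real.log u / (2 * Real.pi) with hq
  have h1 : Real.log u = 2 * Real.pi * q := by rw [hq]; field_simp
  have h2 : u = Real.exp (2 * Real.pi * q) := by rw [← h1, Real.exp_log hu]
  have h3 := Int.floor_le q
  have h4 := (Int.lt_floor_add_one q).le
  have h5 : Gam.ex (-⌊q⌋) * u = Real.exp (2 * Real.pi * (q - ⌊q⌋)) := by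
    unfold Gam.ex
    nth_rw 1 [h2]
    rw [← Real.exp_add]
    push_cast
    ring_nf
  rw [h5]
  constructor
  · rw [Real.one_le_exp_iff]
    exact mul_nonneg (by positivity) (by linarith)
  · unfold Gam.ex
    rw [Real.exp_le_exp]
    push_cast
    nlinarith

theorem gamK_cover {p : PS n Y W Z} (hp : p ∈ gamOpen n Y W Z) :
    ∃ g : Gam n, gamAct g p ∈ gamK n Y W Z := by
  obtain ⟨i, hi⟩ := exists_ex (norm_pos_iff.2 hp.1)
  obtain ⟨l, hl⟩ := exists_ex (norm_pos_iff.2 hp.2)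
  obtain ⟨k, hk⟩ := exists_per_mem_cube p.2.1
  refine ⟨⟨i, l, k, 1⟩, ?_, ?_, ?_⟩
  · rw [norm_gamAct_fst]
    exact hi
  · rw [gamAct_apply]
    simpa [Gam.sg] using hk
  · rw [norm_gamAct_snd]
    exact hl

end product

/-! ### Transport to a Euclidean space -/

section transport

variable {n m : ℕ} {Y W Z : Type*} [NormedAddCommGroup Y] [NormedSpace ℝ Y]
  [NormedAddCommGroup W] [NormedSpace ℝ W] [NormedAddCommGroup Z] [NormedSpace ℝ Z]

theorem gamLin_one (p : PS n Y W Z) : gamLin Y W Z (1 : Gam n) p = p := by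
  rw [gamLin_apply]
  simp

variable (Y W Z) in
/-- the linear part as an equivalence -/
def gamLinE (g : Gam n) : PS n Y W Z ≃L[ℝ] PS n Y W Z :=
  ContinuousLinearEquiv.equivOfInverse (gamLin Y W Z g) (gamLin Y W Z g⁻¹)
    (fun p => by rw [← gamLin_mul, inv_mul_cancel, gamLin_one])
    (fun p => by rw [← gamLin_mul, mul_inv_cancel, gamLin_one])

@[simp] theorem gamLinE_apply (g : Gam n) (p : PS n Y W Z) :
    gamLinE Y W Z g p = gamLin Y W Z g p := rfl

variable (L : PS n Y W Z ≃L[ℝ] Eu m)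

/-- the open subset of the Euclidean space -/
def gamΩ : TopologicalSpace.Opens (Eu m) :=
  ⟨L.symm ⁻¹' gamOpen n Y W Z, isOpen_gamOpen.preimage L.symm.continuous⟩

theorem mem_gamΩ {z : Eu m} : z ∈ gamΩ L ↔ L.symm z ∈ gamOpen n Y W Z := Iff.rfl

instance instGamAct : MulAction (Gam n) (gamΩ L) where
  smul g z := ⟨L (gamAct g (L.symm (z : Eu m))), by
    rw [mem_gamΩ, L.symm_apply_apply]
    exact gamAct_mem g z.2⟩
  one_smul z := by
    apply Subtype.ext
    show L (gamAct 1 (L.symm (z : Eu m))) = z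
    rw [gamAct_one, L.apply_symm_apply]
  mul_smul g h z := by
    apply Subtype.ext
    show L (gamAct (g * h) (L.symm (z : Eu m)))
      = L (gamAct g (L.symm (L (gamAct h (L.symm (z : Eu m))))))
    rw [gamAct_mul, L.symm_apply_apply]

theorem gam_smul_coe (g : Gam n) (z : gamΩ L) :
    ((g • z : gamΩ L) : Eu m) = L (gamAct g (L.symm (z : Eu m))) := rfl

/-- the affine structure of the action -/
def gamAff : AffAct m (Gam n) (gamΩ L) where
  A g := (L.symm.trans (gamLinE Y W Z g)).trans L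
  c g := L (gamTr Y W Z g)
  smul_eq g x := by
    rw [gam_smul_coe]
    unfold gamAct
    rw [map_add]
    rfl

instance instGamCont : ContinuousConstSMul (Gam n) (gamΩ L) where
  continuous_const_smul g := by
    apply Continuous.subtype_mk
    have h : Continuous fun z : gamΩ L =>
        L (gamLin Y W Z g (L.symm (z : Eu m)) + gamTr Y W Z g) := by fun_prop
    exact h

instance instGamCancel : IsCancelSMul (Gam n) (gamΩ L) := by
  rw [isCancelSMul_iff_eq_one_of_smul_eq]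
  intro g z h
  apply gamAct_free g z.2
  have h1 : L (gamAct g (L.symm (z : Eu m))) = z := congrArg Subtype.val h
  have h2 := congrArg L.symm h1
  rwa [L.symm_apply_apply] at h2

instance instGamPD : ProperlyDiscontinuousSMul (Gam n) (gamΩ L) where
  finite_disjoint_inter_image := by
    intro A B hA hB
    have hc : Continuous (fun z : gamΩ L => L.symm (z : Eu m)) := by fun_prop
    refine (gamAct_pd (hA.image hc) (hB.image hc) ?_ ?_).subset ?_
    · rintro _ ⟨z, -, rfl⟩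
      exact z.2
    · rintro _ ⟨z, -, rfl⟩
      exact z.2
    · rintro g ⟨_, ⟨z, hz, rfl⟩, hzB⟩
      refine ⟨L.symm (z : Eu m), ⟨z, hz, rfl⟩, ⟨g • z, hzB, ?_⟩⟩
      show L.symm ((g • z : gamΩ L) : Eu m) = gamAct g (L.symm (z : Eu m))
      rw [gam_smul_coe, L.symm_apply_apply]

/-- the compact set -/
def gamKΩ : Set (Eu m) := L '' gamK n Y W Z

theorem isCompact_gamKΩ [FiniteDimensional ℝ Y] [FiniteDimensional ℝ W] [FiniteDimensional ℝ Z] :
    IsCompact (gamKΩ L) := isCompact_gamK.image L.continuous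

theorem gamKΩ_subset : gamKΩ L ⊆ gamΩ L := by
  rintro _ ⟨p, hp, rfl⟩
  show L.symm (L p) ∈ gamOpen n Y W Z
  rw [L.symm_apply_apply]
  exact gamK_subset hp

theorem gamKΩ_cover (x : gamΩ L) : ∃ g : Gam n, ((g • x : gamΩ L) : Eu m) ∈ gamKΩ L := by
  obtain ⟨g, hg⟩ := gamK_cover x.2
  exact ⟨g, _, hg, (gam_smul_coe L g x).symm⟩

theorem det_gamAff [FiniteDimensional ℝ Y] [FiniteDimensional ℝ W] [FiniteDimensional ℝ Z]
    (g : Gam n) :
    LinearMap.det (((gamAff L).A g : Eu m →L[ℝ] Eu m) : Eu m →ₗ[ℝ] Eu m)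
      = LinearMap.det (gamLin Y W Z g : PS n Y W Z →ₗ[ℝ] PS n Y W Z) := by
  have h := LinearMap.det_conj (gamLin Y W Z g : PS n Y W Z →ₗ[ℝ] PS n Y W Z) L.toLinearEquiv
  rw [← h]
  rfl

theorem det_tau [FiniteDimensional ℝ Y] [FiniteDimensional ℝ W] [FiniteDimensional ℝ Z]
    (hodd : Odd (Module.finrank ℝ Y + n + Module.finrank ℝ W)) :
    LinearMap.det (((gamAff L).A (Gam.tau n) : Eu m →L[ℝ] Eu m) : Eu m →ₗ[ℝ] Eu m) < 0 := by
  rw [det_gamAff]
  unfold gamLin
  rw [det_diag]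
  have h1 : Gam.ex (Gam.tau n).i = 1 := Gam.ex_zero
  have h2 : Gam.ex (Gam.tau n).l = 1 := Gam.ex_zero
  rw [h1, h2, Gam.sg_tau, mul_one, one_mul, one_pow, mul_one, ← pow_add, ← pow_add, ← add_assoc,
    hodd.neg_one_pow]
  norm_num

/-- the action of `tau` -/
theorem gamAct_tau (p : PS n Y W Z) :
    gamAct (Gam.tau n) p = (-p.1, -p.2.1, -p.2.2.1, p.2.2.2) := by
  rw [gamAct_apply]
  have h1 : Gam.ex (Gam.tau n).i = 1 := Gam.ex_zero
  have h2 : Gam.ex (Gam.tau n).l = 1 := Gam.ex_zero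
  have h3 : per (Gam.tau n).k = 0 := per_zero
  rw [h1, h2, h3, Gam.sg_tau]
  simp

end transport

end Pool.Agent.helper8.MC
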