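import Mathlib

/-!
Quotient of a manifold modelled on a normed space by a free properly discontinuous
smooth action (the charted space structure is the one of Mathlib).
-/

open scoped Manifold ContDiff Topology
open Set Function

namespace Pool.Agent.helper98.MC

section
variable {G : Type*} {M : Type*} [Group G] [TopologicalSpace M] [MulAction G M]
  [ProperlyDiscontinuousSMul G M] [ContinuousConstSMul G M] [IsCancelSMul G M]
  [T2Space M] [LocallyCompactSpace M]

variable (G M) in
/-- the orbit projection -/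
def pr : M → MulAction.orbitRel.Quotient G M := Quotient.mk _

omit [TopologicalSpace M] [ProperlyDiscontinuousSMul G M] [ContinuousConstSMul G M]
  [IsCancelSMul G M] [T2Space M] [LocallyCompactSpace M] in
theorem pr_surjective : Surjective (pr G M) := Quotient.mk_surjective

omit [TopologicalSpace M] [ProperlyDiscontinuousSMul G M] [ContinuousConstSMul G M]
  [IsCancelSMul G M] [T2Space M] [LocallyCompactSpace M] in
theorem pr_eq_iff {a b : M} : pr G M a = pr G M b ↔ ∃ g : G, g • b = a := by
  unfold pr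
  rw [Quotient.eq]
  exact MulAction.orbitRel_apply.trans Iff.rfl

omit [TopologicalSpace M] [ProperlyDiscontinuousSMul G M] [ContinuousConstSMul G M]
  [IsCancelSMul G M] [T2Space M] [LocallyCompactSpace M] in
theorem pr_smul (g : G) (a : M) : pr G M (g • a) = pr G M a := pr_eq_iff.2 ⟨g, rfl⟩

variable (G M) in
theorem pr_lh : IsLocalHomeomorph (pr G M) :=
  (isQuotientCoveringMap_quotientMk_of_properlyDiscontinuousSMul (G := G) (E := M)).isCoveringMap
    |>.isLocalHomeomorph

variable (G M) in
theorem pr_isOpenMap : IsOpenMap (pr G M) := (pr_lh G M).isOpenMap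

variable (G M) in
theorem pr_continuous : Continuous (pr G M) := (pr_lh G M).continuous

/-- near `m`, the local inverse at `b` composed with the projection is `g • ·`. -/
theorem localInverse_eq {b m : M} (hm : pr G M m ∈ ((pr_lh G M).localInverseAt b).source) :
    ∃ g : G, g • m ∈ ((pr_lh G M).localInverseAt b).target ∧
      ∀ᶠ x in 𝓝 m, (pr_lh G M).localInverseAt b (pr G M x) = g • x := by
  set L := (pr_lh G M).localInverseAt b with hL
  have h1 : pr G M (L (pr G M m)) = pr G M m :=
    (pr_lh G M).apply_localInverseAt_of_mem hm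
  obtain ⟨g, hg⟩ := pr_eq_iff.1 h1
  have ht : L (pr G M m) ∈ L.target := L.map_source hm
  refine ⟨g, hg ▸ ht, ?_⟩
  have hc : Continuous (fun x : M => g • x) := continuous_const_smul g
  have hn : ∀ᶠ x in 𝓝 m, g • x ∈ L.target := by
    apply hc.continuousAt.eventually
    exact L.open_target.mem_nhds (by simpa [hg] using ht)
  filter_upwards [hn] with x hx
  have h2 : L.symm (g • x) = pr G M x := by
    rw [hL, (pr_lh G M).localInverseAt_symm, pr_smul]
  rw [← h2, L.right_inv hx]

end

section manifold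
variable {E : Type*} [NormedAddCommGroup E] [NormedSpace ℝ E]
  {G : Type*} {M : Type*} [Group G] [TopologicalSpace M] [MulAction G M]
  [ProperlyDiscontinuousSMul G M] [ContinuousConstSMul G M] [IsCancelSMul G M]
  [T2Space M] [LocallyCompactSpace M] [ChartedSpace E M]

omit [NormedSpace ℝ E] in
/-- all charts of the quotient have this form -/
theorem mem_atlas_quot {e : OpenPartialHomeomorph (MulAction.orbitRel.Quotient G M) E}
    (he : e ∈ atlas E (MulAction.orbitRel.Quotient G M)) :
    ∃ a : M, e = ((pr_lh G M).localInverseAt a).trans (chartAt E a) := by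
  obtain ⟨q, hq⟩ := he
  exact ⟨_, hq.symm⟩

omit [NormedSpace ℝ E] in
theorem chartAt_quot (q : MulAction.orbitRel.Quotient G M) :
    ∃ a : M, pr G M a = q ∧
      chartAt E q = ((pr_lh G M).localInverseAt a).trans (chartAt E a) := by
  refine ⟨_, ?_, rfl⟩
  exact (pr_surjective (G := G) (M := M)).hasRightInverse.choose_spec q

theorem isManifold_quot {n : ℕ∞ω} [IsManifold 𝓘(ℝ, E) n M]
    (hG : ∀ g : G, ContMDiff 𝓘(ℝ, E) 𝓘(ℝ, E) n (fun x : M => g • x)) :
    IsManifold 𝓘(ℝ, E) n (MulAction.orbitRel.Quotient G M) := by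
  apply isManifold_of_contDiffOn
  intro e e' he he'
  obtain ⟨a, rfl⟩ := mem_atlas_quot he
  obtain ⟨b, rfl⟩ := mem_atlas_quot he'
  intro y hy
  apply ContDiffAt.contDiffWithinAt
  simp only [modelWithCornersSelf_coe, modelWithCornersSelf_coe_symm, preimage_id_eq, id_eq,
    range_id, inter_univ, OpenPartialHomeomorph.trans_source, mem_inter_iff, mem_preimage,
    OpenPartialHomeomorph.symm_source, OpenPartialHomeomorph.trans_target] at hy
  set La := (pr_lh G M).localInverseAt a with hLa
  set Lb := (pr_lh G M).localInverseAt b with hLb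
  obtain ⟨⟨hy1, hy2⟩, hy3, hy4⟩ := hy
  have hLas : ∀ x, La.symm x = pr G M x := fun x => by
    rw [hLa, (pr_lh G M).localInverseAt_symm]
  set m : M := (chartAt E a).symm y with hm
  have hy3' : pr G M m ∈ Lb.source := by
    have := hy3
    simpa [OpenPartialHomeomorph.coe_trans_symm, hLas] using this
  obtain ⟨g, hg1, hg2⟩ := localInverse_eq hy3'
  have hmg : Lb (pr G M m) = g • m := hg2.self_of_nhds
  have hy4' : g • m ∈ (chartAt E b).source := by
    rw [← hmg]
    have := hy4
    simpa [OpenPartialHomeomorph.coe_trans_symm, hLas] using this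
  have hc : ContinuousAt (chartAt E a).symm y := (chartAt E a).continuousAt_symm hy1
  have hev : (𝓘(ℝ, E) ∘ (((La.trans (chartAt E a)).symm).trans (Lb.trans (chartAt E b)))
      ∘ 𝓘(ℝ, E).symm) =ᶠ[𝓝 y] fun z => chartAt E b (g • (chartAt E a).symm z) := by
    filter_upwards [hc.eventually hg2] with z hz
    simp only [comp_apply, modelWithCornersSelf_coe, modelWithCornersSelf_coe_symm, id_eq,
      OpenPartialHomeomorph.coe_trans, OpenPartialHomeomorph.coe_trans_symm, hLas]
    rw [hz]
  refine ContDiffAt.congr_of_eventuallyEq ?_ hev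
  rw [← contMDiffAt_iff_contDiffAt]
  have h1 : ContMDiffAt 𝓘(ℝ, E) 𝓘(ℝ, E) n (chartAt E a).symm y :=
    (contMDiffOn_chart_symm (I := 𝓘(ℝ, E)) (n := n) (x := a)).contMDiffAt
      ((chartAt E a).open_target.mem_nhds hy1)
  have h2 : ContMDiffAt 𝓘(ℝ, E) 𝓘(ℝ, E) n (fun x : M => g • x) m := (hG g).contMDiffAt
  have h3 : ContMDiffAt 𝓘(ℝ, E) 𝓘(ℝ, E) n (chartAt E b) (g • m) :=
    (contMDiffOn_chart (I := 𝓘(ℝ, E)) (n := n) (x := b)).contMDiffAt
      ((chartAt E b).open_source.mem_nhds hy4')
  exact h3.comp y (h2.comp y h1)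

theorem pr_contMDiff {n : ℕ∞ω} [IsManifold 𝓘(ℝ, E) n M]
    (hG : ∀ g : G, ContMDiff 𝓘(ℝ, E) 𝓘(ℝ, E) n (fun x : M => g • x)) :
    ContMDiff 𝓘(ℝ, E) 𝓘(ℝ, E) n (pr G M) := by
  have := isManifold_quot (n := n) hG
  intro m
  obtain ⟨b, hb, hch⟩ := chartAt_quot (E := E) (pr G M m)
  set Lb := (pr_lh G M).localInverseAt b with hLb
  have hs : pr G M m ∈ Lb.source := by
    rw [hLb, ← hb]; exact (pr_lh G M).apply_self_mem_localInverseAt_source
  obtain ⟨g, hg1, hg2⟩ := localInverse_eq hs
  have hmg : Lb (pr G M m) = g • m := hg2.self_of_nhds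
  have hmb : g • m = b := by
    rw [← hmg, ← hb, hLb]
    exact (pr_lh G M).localInverseAt_apply_self
  rw [contMDiffAt_iff_target]
  refine ⟨(pr_continuous G M).continuousAt, ?_⟩
  have h2 : ContMDiffAt 𝓘(ℝ, E) 𝓘(ℝ, E) n (fun x : M => g • x) m := (hG g).contMDiffAt
  have h3 : ContMDiffAt 𝓘(ℝ, E) 𝓘(ℝ, E) n (chartAt E b) (g • m) := by
    rw [hmb]
    exact (contMDiffOn_chart (I := 𝓘(ℝ, E)) (n := n) (x := b)).contMDiffAt
      ((chartAt E b).open_source.mem_nhds (mem_chart_source E b))
  refine (h3.comp m h2).congr_of_eventuallyEq ?_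
  filter_upwards [hg2] with x hx
  simp only [comp_apply, mfld_simps]
  rw [hch]
  simp only [OpenPartialHomeomorph.coe_trans, comp_apply]
  rw [show (pr_lh G M).localInverseAt b (pr G M x) = g • x from hx]

/-- local smooth sections of the projection -/
theorem section_contMDiffAt {n : ℕ∞ω} [IsManifold 𝓘(ℝ, E) n M]
    (hG : ∀ g : G, ContMDiff 𝓘(ℝ, E) 𝓘(ℝ, E) n (fun x : M => g • x)) (m : M) :
    ContMDiffAt 𝓘(ℝ, E) 𝓘(ℝ, E) n ((pr_lh G M).localInverseAt m) (pr G M m) := by
  have := isManifold_quot (n := n) hG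
  obtain ⟨b, hb, hch⟩ := chartAt_quot (E := E) (pr G M m)
  set Lm := (pr_lh G M).localInverseAt m with hLm
  set Lb := (pr_lh G M).localInverseAt b with hLb
  have hs : pr G M b ∈ Lm.source := by
    rw [hLm, hb]; exact (pr_lh G M).apply_self_mem_localInverseAt_source
  obtain ⟨g, hg1, hg2⟩ := localInverse_eq hs
  -- near `q`, `Lm = g • Lb`
  have hbs : pr G M b ∈ Lb.source := (pr_lh G M).apply_self_mem_localInverseAt_source
  have hLbb : Lb (pr G M b) = b := (pr_lh G M).localInverseAt_apply_self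
  have hcont : ContinuousAt Lb (pr G M b) := Lb.continuousAt hbs
  have hev : ∀ᶠ q in 𝓝 (pr G M b), Lm q = g • Lb q := by
    have h1 : ∀ᶠ q in 𝓝 (pr G M b), Lm (pr G M (Lb q)) = g • Lb q := by
      apply hcont.eventually (p := fun x => Lm (pr G M x) = g • x)
      rw [hLbb]; exact hg2
    filter_upwards [h1, Lb.open_source.mem_nhds hbs] with q hq hq'
    rwa [(pr_lh G M).apply_localInverseAt_of_mem hq'] at hq
  -- `Lb` is smooth at `q`, since `Lb = (chartAt b).symm ∘ chartAt q`
  have hLbs : ContMDiffAt 𝓘(ℝ, E) 𝓘(ℝ, E) n Lb (pr G M b) := by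
    have h1 : ContMDiffAt 𝓘(ℝ, E) 𝓘(ℝ, E) n (chartAt E (pr G M m)) (pr G M b) := by
      apply (contMDiffOn_chart (I := 𝓘(ℝ, E)) (n := n) (x := pr G M m)).contMDiffAt
      rw [hb]
      exact (chartAt E (pr G M m)).open_source.mem_nhds (mem_chart_source E _)
    have h2 : chartAt E (pr G M m) (pr G M b) = chartAt E b b := by
      rw [hch]
      simp only [OpenPartialHomeomorph.coe_trans, comp_apply]
      rw [show (pr_lh G M).localInverseAt b (pr G M b) = b from hLbb]
    have h3 : ContMDiffAt 𝓘(ℝ, E) 𝓘(ℝ, E) n (chartAt E b).symm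
        (chartAt E (pr G M m) (pr G M b)) := by
      apply (contMDiffOn_chart_symm (I := 𝓘(ℝ, E)) (n := n) (x := b)).contMDiffAt
      rw [h2]
      exact (chartAt E b).open_target.mem_nhds (mem_chart_target E b)
    refine (h3.comp (pr G M b) h1).congr_of_eventuallyEq ?_
    have h4 : ∀ᶠ q in 𝓝 (pr G M b), Lb q ∈ (chartAt E b).source := by
      apply hcont.eventually
      rw [hLbb]
      exact (chartAt E b).open_source.mem_nhds (mem_chart_source E b)
    filter_upwards [h4] with q hq
    simp only [comp_apply]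
    rw [hch]
    simp only [OpenPartialHomeomorph.coe_trans, comp_apply]
    exact ((chartAt E b).left_inv hq).symm
  have hfin : ContMDiffAt 𝓘(ℝ, E) 𝓘(ℝ, E) n (fun q => g • Lb q) (pr G M b) :=
    ((hG g).contMDiffAt).comp (pr G M b) hLbs
  rw [← hb]
  exact hfin.congr_of_eventuallyEq hev

end manifold

end Pool.Agent.helper98.MC
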