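import Pool.Agent.helper98.MC.Polar
import Pool.Agent.helper8.MC.CodDef
import Pool.Agent.helper8.MC.CodA
import Pool.Agent.helper8.MC.CodD

/-!
# The immersion in codimension one
-/

open scoped Manifold ContDiff Topology InnerProductSpace

noncomputable section

namespace Pool.Agent.helper8.MC

variable {n : ℕ} {V W H : Type} [NormedAddCommGroup V] [InnerProductSpace ℝ V]
  [NormedAddCommGroup W] [InnerProductSpace ℝ W] [NormedAddCommGroup H] [InnerProductSpace ℝ H]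

/-- the fibre variable `(ω, ζ)`, `ζ = (w, z)`, in the form `(ω, (z, w))` -/
def fib (v : W × Eu (n + 1)) : W × (ℝ × Eu n) := (v.1, (lst n v.2, ini n v.2))

theorem inner_ini_lst (ζ ζ' : Eu (n + 1)) :
    lst n ζ * lst n ζ' + ⟪ini n ζ, ini n ζ'⟫_ℝ = ⟪ζ, ζ'⟫_ℝ := by
  rw [inner_Eu, inner_Eu, Fin.sum_univ_castSucc, add_comm]
  rfl

theorem ip_fib (v v' : W × Eu (n + 1)) :
    ip (fib v) (fib v') = ⟪v.1, v'.1⟫_ℝ + ⟪v.2, v'.2⟫_ℝ := by
  unfold ip fib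
  simp only
  rw [add_assoc, inner_ini_lst]

omit [InnerProductSpace ℝ W] in
theorem fib_eq_zero {v : W × Eu (n + 1)} (h : fib v = 0) : v = 0 := by
  have h1 : v.1 = 0 := congrArg Prod.fst h
  have h2 : lst n v.2 = 0 := congrArg (fun q : W × (ℝ × Eu n) => q.2.1) h
  have h3 : ini n v.2 = 0 := congrArg (fun q : W × (ℝ × Eu n) => q.2.2) h
  exact Prod.ext h1 (ini_lst_eq_zero h3 h2)

/-- the map before the projection, on the product space -/
def G0m (D : CDat n V W H) (f : Eu n → Eu (n + 1)) (q : PS n (Eu (n + 1)) W (Eu (n + 1))) : H :=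
  D.g0 f q.1 q.2.1 (fib q.2.2)

/-- `cat a 0` and `cat 0 a` as linear maps -/
def catl (n : ℕ) : Eu (n + 1) →L[ℝ] RB n :=
  (catL n).comp (ContinuousLinearMap.inl ℝ (Eu (n + 1)) (Eu (n + 1)))

def catr (n : ℕ) : Eu (n + 1) →L[ℝ] RB n :=
  (catL n).comp (ContinuousLinearMap.inr ℝ (Eu (n + 1)) (Eu (n + 1)))

theorem contDiff_rr {f : Eu n → Eu (n + 1)} (hf : ContDiff ℝ ∞ f) :
    ContDiff ℝ ∞ (fun q : PS n (Eu (n + 1)) W (Eu (n + 1)) => rr f q.1 q.2.1) := by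
  unfold rr
  exact contDiff_const.add ((hf.comp contDiff_snd.fst).inner ℝ contDiff_fst)

theorem contDiff_ccv {f : Eu n → Eu (n + 1)} (hf : ContDiff ℝ ∞ f) :
    ContDiff ℝ ∞ (fun q : PS n (Eu (n + 1)) W (Eu (n + 1)) =>
      ccv f q.1 q.2.1 (lst n q.2.2.2)) := by
  unfold ccv
  have h1 : ContDiff ℝ ∞ (fun q : PS n (Eu (n + 1)) W (Eu (n + 1)) => f q.2.1) :=
    hf.comp contDiff_snd.fst
  have h2 : ContDiff ℝ ∞ (fun q : PS n (Eu (n + 1)) W (Eu (n + 1)) => lst n q.2.2.2) :=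
    (lst n).contDiff.comp contDiff_snd.snd.snd
  exact (h1.sub ((h1.inner ℝ contDiff_fst).smul contDiff_fst)).add
    (((contDiff_rr hf).mul h2).smul contDiff_fst)

theorem contDiff_G0m (D : CDat n V W H) {f : Eu n → Eu (n + 1)} (hf : ContDiff ℝ ∞ f) :
    ContDiff ℝ ∞ (G0m D f) := by
  have hy : ContDiff ℝ ∞ (fun q : PS n (Eu (n + 1)) W (Eu (n + 1)) => q.1) := contDiff_fst
  have hr := contDiff_rr (W := W) hf
  have hc := contDiff_ccv (W := W) hf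
  have hj : ContDiff ℝ ∞ (fun q : PS n (Eu (n + 1)) W (Eu (n + 1)) => D.tens (D.j q.1)) :=
    D.tens.contDiff.comp (D.j.contDiff.comp hy)
  have h1 : ContDiff ℝ ∞ (fun q : PS n (Eu (n + 1)) W (Eu (n + 1)) =>
      D.tens (D.j q.1) (catl n q.1)) := hj.clm_apply ((catl n).contDiff.comp hy)
  have h2 : ContDiff ℝ ∞ (fun q : PS n (Eu (n + 1)) W (Eu (n + 1)) =>
      D.tens (D.j q.1) (catr n (ccv f q.1 q.2.1 (lst n q.2.2.2)))) :=
    hj.clm_apply ((catr n).contDiff.comp hc)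
  have h3 : ContDiff ℝ ∞ (fun q : PS n (Eu (n + 1)) W (Eu (n + 1)) => D.Ps q.1 q.2.2.1) :=
    (D.Ps.contDiff.comp hy).clm_apply contDiff_snd.snd.fst
  have h4 : ContDiff ℝ ∞ (fun q : PS n (Eu (n + 1)) W (Eu (n + 1)) => D.incl (ini n q.2.2.2)) :=
    D.incl.contDiff.comp ((ini n).contDiff.comp contDiff_snd.snd.snd)
  exact h1.add (((hr.smul h3).add h2).add (hr.smul h4) |>.const_smul (1 / 4 : ℝ))

/-- the derivative of the map in a direction -/
theorem G0m_deriv (D : CDat n V W H) {f : Eu n → Eu (n + 1)} (hf : ContDiff ℝ ∞ f)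
    (q u : PS n (Eu (n + 1)) W (Eu (n + 1))) {r' : ℝ}
    (hr' : r' = ⟪fderiv ℝ f q.2.1 u.2.1, q.1⟫_ℝ + ⟪f q.2.1, u.1⟫_ℝ) {cc' : Eu (n + 1)}
    (hcc' : cc' = fderiv ℝ f q.2.1 u.2.1 - r' • q.1 - ⟪f q.2.1, q.1⟫_ℝ • u.1 +
      (r' * (fib q.2.2).2.1 + rr f q.1 q.2.1 * (fib u.2.2).2.1) • q.1 +
      (rr f q.1 q.2.1 * (fib q.2.2).2.1) • u.1) :
    D.tens (D.j u.1) (cat q.1 0) + D.tens (D.j q.1) (cat u.1 0) + (1 / 4 : ℝ) •
      ((r' • D.Ps q.1 (fib q.2.2).1 + rr f q.1 q.2.1 •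
        (D.Ps u.1 (fib q.2.2).1 + D.Ps q.1 (fib u.2.2).1)) +
        (D.tens (D.j u.1) (cat 0 (ccv f q.1 q.2.1 (lst n q.2.2.2))) +
          D.tens (D.j q.1) (cat 0 cc')) +
        (r' • D.incl (fib q.2.2).2.2 + rr f q.1 q.2.1 • D.incl (fib u.2.2).2.2)) =
      fderiv ℝ (G0m D f) q u := by
  have hd : DifferentiableAt ℝ (G0m D f) q := (contDiff_G0m D hf).differentiable (by simp) q
  have hline : HasDerivAt (fun t : ℝ => q + t • u) u 0 := by
    have h1 := ((hasDerivAt_id (0 : ℝ)).smul_const u).const_add q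
    simpa using h1
  have e0 : q + (0 : ℝ) • u = q := by rw [zero_smul, add_zero]
  have hG : HasDerivAt (fun t : ℝ => G0m D f (q + t • u)) (fderiv ℝ (G0m D f) q u) 0 := by
    have h1 : HasFDerivAt (G0m D f) (fderiv ℝ (G0m D f) q) (q + (0 : ℝ) • u) := by
      rw [e0]
      exact hd.hasFDerivAt
    exact h1.comp_hasDerivAt 0 hline
  have hy : HasDerivAt (fun t : ℝ => (q + t • u).1) u.1 0 :=
    (ContinuousLinearMap.fst ℝ (Eu (n + 1)) (Eu n × W × Eu (n + 1))).hasFDerivAt.comp_hasDerivAt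
      0 hline
  have hsnd : HasDerivAt (fun t : ℝ => (q + t • u).2) u.2 0 :=
    (ContinuousLinearMap.snd ℝ (Eu (n + 1)) (Eu n × W × Eu (n + 1))).hasFDerivAt.comp_hasDerivAt
      0 hline
  have hs : HasDerivAt (fun t : ℝ => (q + t • u).2.1) u.2.1 0 :=
    (ContinuousLinearMap.fst ℝ (Eu n) (W × Eu (n + 1))).hasFDerivAt.comp_hasDerivAt 0 hsnd
  have hv : HasDerivAt (fun t : ℝ => (q + t • u).2.2) u.2.2 0 :=
    (ContinuousLinearMap.snd ℝ (Eu n) (W × Eu (n + 1))).hasFDerivAt.comp_hasDerivAt 0 hsnd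
  have hx : HasDerivAt (fun t : ℝ => (q + t • u).2.2.1) u.2.2.1 0 :=
    (ContinuousLinearMap.fst ℝ W (Eu (n + 1))).hasFDerivAt.comp_hasDerivAt 0 hv
  have hζ : HasDerivAt (fun t : ℝ => (q + t • u).2.2.2) u.2.2.2 0 :=
    (ContinuousLinearMap.snd ℝ W (Eu (n + 1))).hasFDerivAt.comp_hasDerivAt 0 hv
  have hfs : HasDerivAt (fun t : ℝ => f (q + t • u).2.1) (fderiv ℝ f q.2.1 u.2.1) 0 := by
    have h1 : HasFDerivAt f (fderiv ℝ f q.2.1) (q + (0 : ℝ) • u).2.1 := by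
      rw [e0]
      exact (hf.differentiable (by simp) _).hasFDerivAt
    exact h1.comp_hasDerivAt 0 hs
  have hin : HasDerivAt (fun t : ℝ => ⟪f (q + t • u).2.1, (q + t • u).1⟫_ℝ) r' 0 := by
    have h1 := hfs.inner ℝ hy
    rw [e0] at h1
    refine h1.congr_deriv ?_
    rw [hr', add_comm]
  have hr : HasDerivAt (fun t : ℝ => rr f (q + t • u).1 (q + t • u).2.1) r' 0 :=
    hin.const_add 1
  have hj : HasDerivAt (fun t : ℝ => D.tens (D.j (q + t • u).1)) (D.tens (D.j u.1)) 0 :=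
    (D.tens.comp D.j).hasFDerivAt.comp_hasDerivAt 0 hy
  have hP : HasDerivAt (fun t : ℝ => D.Ps (q + t • u).1) (D.Ps u.1) 0 :=
    D.Ps.hasFDerivAt.comp_hasDerivAt 0 hy
  have hPo : HasDerivAt (fun t : ℝ => D.Ps (q + t • u).1 (q + t • u).2.2.1)
      (D.Ps u.1 q.2.2.1 + D.Ps q.1 u.2.2.1) 0 := by
    have h1 := hP.clm_apply hx
    rw [e0] at h1
    exact h1
  have hz : HasDerivAt (fun t : ℝ => lst n (q + t • u).2.2.2) (lst n u.2.2.2) 0 :=
    (lst n).hasFDerivAt.comp_hasDerivAt 0 hζ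
  have hw : HasDerivAt (fun t : ℝ => D.incl (ini n (q + t • u).2.2.2))
      (D.incl (ini n u.2.2.2)) 0 :=
    (D.incl.comp (ini n)).hasFDerivAt.comp_hasDerivAt 0 hζ
  have hrz : HasDerivAt (fun t : ℝ => rr f (q + t • u).1 (q + t • u).2.1 *
      lst n (q + t • u).2.2.2) (r' * lst n q.2.2.2 + rr f q.1 q.2.1 * lst n u.2.2.2) 0 := by
    have h1 := hr.mul hz
    rw [e0] at h1
    exact h1
  have hc : HasDerivAt (fun t : ℝ => ccv f (q + t • u).1 (q + t • u).2.1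
      (lst n (q + t • u).2.2.2)) cc' 0 := by
    have h1 := (hfs.sub (hin.smul hy)).add (hrz.smul hy)
    rw [e0] at h1
    refine h1.congr_deriv ?_
    rw [hcc']
    simp only [fib]
    module
  have h1 : HasDerivAt (fun t : ℝ => D.tens (D.j (q + t • u).1) (catl n (q + t • u).1))
      (D.tens (D.j u.1) (catl n q.1) + D.tens (D.j q.1) (catl n u.1)) 0 := by
    have h1 := hj.clm_apply ((catl n).hasFDerivAt.comp_hasDerivAt 0 hy)
    simp only [Function.comp_apply] at h1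
    rw [e0] at h1
    exact h1
  have h2 : HasDerivAt (fun t : ℝ => D.tens (D.j (q + t • u).1)
      (catr n (ccv f (q + t • u).1 (q + t • u).2.1 (lst n (q + t • u).2.2.2))))
      (D.tens (D.j u.1) (catr n (ccv f q.1 q.2.1 (lst n q.2.2.2))) +
        D.tens (D.j q.1) (catr n cc')) 0 := by
    have h1 := hj.clm_apply ((catr n).hasFDerivAt.comp_hasDerivAt 0 hc)
    simp only [Function.comp_apply] at h1
    rw [e0] at h1
    exact h1
  have h3 := h1.add ((((hr.smul hPo).add h2).add (hr.smul hw)).const_smul (1 / 4 : ℝ))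
  rw [e0] at h3
  have h4 := hG.unique h3
  rw [h4]
  simp only [fib]
  have e1 : ∀ a, catl n a = cat a 0 := fun a => rfl
  have e2 : ∀ a, catr n a = cat 0 a := fun a => rfl
  rw [e1, e1, e2, e2]
  module

/-- the kernel of the derivative modulo `D₁` in the tangential directions -/
theorem G0m_ker (D : CDat n V W H) {f : Eu n → Eu (n + 1)} (hf : ContDiff ℝ ∞ f)
    (hb : ∀ s, ‖f s‖ ≤ 1 / 2) (hinj : ∀ s, Function.Injective (fderiv ℝ f s))
    {p : PS n (Eu (n + 1)) W (Eu (n + 1))} (hp : p ∈ gamOpen n (Eu (n + 1)) W (Eu (n + 1)))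
    {u : PS n (Eu (n + 1)) W (Eu (n + 1))}
    (ha : fderiv ℝ (al : PS n (Eu (n + 1)) W (Eu (n + 1)) → ℝ) p u = 0)
    (hbe : fderiv ℝ (be : PS n (Eu (n + 1)) W (Eu (n + 1)) → ℝ) p u = 0) {lam : ℝ}
    (h : fderiv ℝ (G0m D f ∘ nrm) p u = lam • D.D1) : u = 0 := by
  obtain ⟨t1, t2, t3⟩ := nrm_tangent hp ha hbe
  have hd : DifferentiableAt ℝ (G0m D f) (nrm p) :=
    (contDiff_G0m D hf).differentiable (by simp) _
  have hc : fderiv ℝ (G0m D f ∘ nrm) p u = fderiv ℝ (G0m D f) (nrm p) (fderiv ℝ nrm p u) := by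
    rw [(hd.hasFDerivAt.comp p (hasFDerivAt_nrm hp)).fderiv]
    rfl
  rw [hc, ← G0m_deriv D hf (nrm p) (fderiv ℝ nrm p u) rfl rfl] at h
  have hv : ip (fib (nrm p).2.2) (fib (nrm p).2.2) = 1 := by
    rw [ip_fib, real_inner_self_eq_norm_sq, real_inner_self_eq_norm_sq, vN_nrm_sq hp]
  have hvv : ip (fib (nrm p).2.2) (fib (fderiv ℝ nrm p u).2.2) = 0 := by
    rw [ip_fib]
    exact t2
  obtain ⟨k1, k2, k3⟩ := codim_alg D (norm_nrm_fst hp) t1 (hb _) hv hvv rfl rfl rfl h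
  apply t3
  refine Prod.ext k1 (Prod.ext ?_ (fib_eq_zero k3))
  exact (injective_iff_map_eq_zero _).1 (hinj _) _ k2

/-- the bound -/
theorem norm_G0m_le (D : CDat n V W H) {f : Eu n → Eu (n + 1)} (hb : ∀ s, ‖f s‖ ≤ 1 / 2)
    {p : PS n (Eu (n + 1)) W (Eu (n + 1))} (hp : p ∈ gamOpen n (Eu (n + 1)) W (Eu (n + 1))) :
    ‖G0m D f (nrm p)‖ ≤ 5 := by
  have hy := norm_nrm_fst hp
  have hv := vN_nrm_sq hp
  set q := nrm p with hq
  have hfy : |⟪f q.2.1, q.1⟫_ℝ| ≤ 1 / 2 := by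
    refine (abs_real_inner_le_norm _ _).trans ?_
    rw [hy, mul_one]
    exact hb _
  have hr : |rr f q.1 q.2.1| ≤ 3 / 2 := by
    unfold rr
    rw [abs_le] at hfy ⊢
    constructor <;> linarith
  have ho : ‖q.2.2.1‖ ≤ 1 := by nlinarith [sq_nonneg ‖q.2.2.2‖, norm_nonneg q.2.2.1]
  have hζ : ‖q.2.2.2‖ ≤ 1 := by nlinarith [sq_nonneg ‖q.2.2.1‖, norm_nonneg q.2.2.2]
  have hζ2 := inner_ini_lst q.2.2.2 q.2.2.2
  rw [real_inner_self_eq_norm_sq, real_inner_self_eq_norm_sq] at hζ2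
  have hz : |lst n q.2.2.2| ≤ 1 := by
    rw [← sq_le_one_iff_abs_le_one]
    nlinarith [sq_nonneg ‖ini n q.2.2.2‖, norm_nonneg q.2.2.2]
  have hw : ‖ini n q.2.2.2‖ ≤ 1 := by
    nlinarith [sq_nonneg (lst n q.2.2.2), norm_nonneg q.2.2.2, norm_nonneg (ini n q.2.2.2)]
  have hcat1 : ‖cat q.1 0‖ = 1 := by
    have h4 := norm_cat q.1 0
    rw [norm_zero, hy] at h4
    nlinarith [norm_nonneg (cat q.1 0)]
  have hcc : ‖ccv f q.1 q.2.1 (lst n q.2.2.2)‖ ≤ 5 / 2 := by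
    unfold ccv
    refine (norm_add_le _ _).trans ?_
    have h1 : ‖f q.2.1 - ⟪f q.2.1, q.1⟫_ℝ • q.1‖ ≤ 1 := by
      refine (norm_sub_le _ _).trans ?_
      rw [norm_smul, hy, mul_one, Real.norm_eq_abs]
      have := hb q.2.1
      linarith
    have h2 : ‖(rr f q.1 q.2.1 * lst n q.2.2.2) • q.1‖ ≤ 3 / 2 := by
      rw [norm_smul, hy, mul_one, Real.norm_eq_abs, abs_mul]
      calc |rr f q.1 q.2.1| * |lst n q.2.2.2| ≤ 3 / 2 * 1 :=
            mul_le_mul hr hz (abs_nonneg _) (by norm_num)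
        _ = 3 / 2 := by norm_num
    linarith
  have hcat2 : ‖cat 0 (ccv f q.1 q.2.1 (lst n q.2.2.2))‖ ≤ 5 / 2 := by
    have h4 := norm_cat 0 (ccv f q.1 q.2.1 (lst n q.2.2.2))
    rw [norm_zero] at h4
    have h5 : ‖cat 0 (ccv f q.1 q.2.1 (lst n q.2.2.2))‖ = ‖ccv f q.1 q.2.1 (lst n q.2.2.2)‖ :=
      (sq_eq_sq₀ (norm_nonneg _) (norm_nonneg _)).1 (by rw [h4]; ring)
    rw [h5]
    exact hcc
  unfold G0m CDat.g0 fib
  simp only
  have b1 : ‖D.tens (D.j q.1) (cat q.1 0)‖ ≤ 1 := by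
    rw [D.norm_tens, D.norm_j, hy, hcat1]
    norm_num
  have b2 : ‖rr f q.1 q.2.1 • D.Ps q.1 q.2.2.1‖ ≤ 3 / 2 := by
    rw [norm_smul, D.norm_Ps, hy, one_mul, Real.norm_eq_abs]
    calc |rr f q.1 q.2.1| * ‖q.2.2.1‖ ≤ 3 / 2 * 1 :=
          mul_le_mul hr ho (norm_nonneg _) (by norm_num)
      _ = 3 / 2 := by norm_num
  have b3 : ‖D.tens (D.j q.1) (cat 0 (ccv f q.1 q.2.1 (lst n q.2.2.2)))‖ ≤ 5 / 2 := by
    rw [D.norm_tens, D.norm_j, hy, one_mul]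
    exact hcat2
  have b4 : ‖rr f q.1 q.2.1 • D.incl (ini n q.2.2.2)‖ ≤ 3 / 2 := by
    rw [norm_smul, D.norm_incl, Real.norm_eq_abs]
    calc |rr f q.1 q.2.1| * ‖ini n q.2.2.2‖ ≤ 3 / 2 * 1 :=
          mul_le_mul hr hw (norm_nonneg _) (by norm_num)
      _ = 3 / 2 := by norm_num
  refine (norm_add_le _ _).trans ?_
  rw [norm_smul]
  have h6 : ‖rr f q.1 q.2.1 • D.Ps q.1 q.2.2.1 +
      D.tens (D.j q.1) (cat 0 (ccv f q.1 q.2.1 (lst n q.2.2.2))) +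
      rr f q.1 q.2.1 • D.incl (ini n q.2.2.2)‖ ≤ 3 / 2 + 5 / 2 + 3 / 2 :=
    (norm_add_le _ _).trans (add_le_add ((norm_add_le _ _).trans (add_le_add b2 b3)) b4)
  rw [Real.norm_of_nonneg (by norm_num : (0 : ℝ) ≤ 1 / 4)]
  linarith

/-- the sign change -/
theorem g0_neg (D : CDat n V W H) {f : Eu n → Eu (n + 1)} (hodd : ∀ s, f (-s) = -f s)
    (y : Eu (n + 1)) (s : Eu n) (v : W × (ℝ × Eu n)) :
    D.g0 f (-y) (-s) (-v.1, v.2) = D.g0 f y s v := by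
  have hr : rr f (-y) (-s) = rr f y s := by
    unfold rr
    rw [hodd, inner_neg_neg]
  have hc : ccv f (-y) (-s) v.2.1 = -ccv f y s v.2.1 := by
    unfold ccv
    rw [hr, hodd, inner_neg_neg]
    module
  have h1 : cat (-y) 0 = -cat y 0 := by
    rw [← neg_one_smul ℝ (cat _ _), ← cat_smul]; simp
  have h2 : cat 0 (-ccv f y s v.2.1) = -cat 0 (ccv f y s v.2.1) := by
    rw [← neg_one_smul ℝ (cat _ _), ← cat_smul]; simp
  unfold CDat.g0
  simp only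
  rw [hr, hc, h1, h2]
  simp only [map_neg, neg_apply, neg_neg]

theorem g0_per (D : CDat n V W H) {f : Eu n → Eu (n + 1)} (hper : ∀ s k, f (s + per k) = f s)
    (y : Eu (n + 1)) (s : Eu n) (k : Fin n → ℤ) (v : W × (ℝ × Eu n)) :
    D.g0 f y (s + per k) v = D.g0 f y s v := by
  have hr : rr f y (s + per k) = rr f y s := by
    unfold rr
    rw [hper]
  have hc : ccv f y (s + per k) v.2.1 = ccv f y s v.2.1 := by
    unfold ccv
    rw [hr, hper]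
  unfold CDat.g0
  rw [hr, hc]

theorem G0m_gamAct (D : CDat n V W H) {f : Eu n → Eu (n + 1)} (hodd : ∀ s, f (-s) = -f s)
    (hper : ∀ s k, f (s + per k) = f s) (g : Gam n) (p : PS n (Eu (n + 1)) W (Eu (n + 1))) :
    G0m D f (nrm (gamAct g p)) = G0m D f (nrm p) := by
  rw [nrm_gamAct]
  set q := nrm p with hq
  unfold G0m
  simp only
  rw [g0_per D hper]
  rcases g.sg_eq with h | h
  · rw [h, one_smul, one_smul, one_smul]
  · rw [h, neg_one_smul, neg_one_smul, neg_one_smul]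
    exact g0_neg D hodd q.1 q.2.1 (fib q.2.2)

/-- **The immersion in codimension one.** -/
theorem exists_F1 {n k : ℕ} {V : Type} [NormedAddCommGroup V] [InnerProductSpace ℝ V]
    (D : CDat n V (Eu k) (Eu (k + 3 * n + 2))) :
    ∃ f1 : PS n (Eu (n + 1)) (Eu k) (Eu (n + 1)) → Eu (k + 3 * n + 2 + 1),
      ContDiffOn ℝ ∞ f1 (gamOpen n (Eu (n + 1)) (Eu k) (Eu (n + 1))) ∧
      (∀ x ∈ gamOpen n (Eu (n + 1)) (Eu k) (Eu (n + 1)), ∀ u, fderiv ℝ f1 x u = 0 → u = 0) ∧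
      (∀ (g : Gam n), ∀ x ∈ gamOpen n (Eu (n + 1)) (Eu k) (Eu (n + 1)),
        f1 (gamAct g x) = f1 x) := by
  obtain ⟨f, hf, hinj, hodd, hper, hb⟩ := exists_odd_torus n
  obtain ⟨P, hP⟩ := exists_proj (N := k + 3 * n + 1) D.D1 (D1_ne_zero D)
  have hsm : ContDiffOn ℝ ∞ (G0m D f ∘ nrm) (gamOpen n (Eu (n + 1)) (Eu k) (Eu (n + 1))) :=
    (contDiff_G0m D hf).comp_contDiffOn contDiffOn_nrm
  have hsm2 : ContDiffOn ℝ ∞ (fun x => P ((G0m D f ∘ nrm) x))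
      (gamOpen n (Eu (n + 1)) (Eu k) (Eu (n + 1))) := P.contDiff.comp_contDiffOn hsm
  obtain ⟨G, g1, g2, g3⟩ := exists_susp2 (k := k + 3 * n) (F' := Eu (k + 3 * n + 1))
    (finrank_euclideanSpace_fin) isOpen_gamOpen hsm2 contDiffOn_al contDiffOn_be
    (B := ‖P‖ * 5) (fun x hx => (P.le_opNorm _).trans
      (mul_le_mul_of_nonneg_left (norm_G0m_le D hb hx) (norm_nonneg _)))
  refine ⟨G, g1, ?_, ?_⟩
  · intro x hx u hu
    obtain ⟨k1, k2, k3⟩ := g2 x hx u hu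
    have hd : DifferentiableAt ℝ (G0m D f ∘ nrm) x :=
      (hsm.contDiffAt (isOpen_gamOpen.mem_nhds hx)).differentiableAt (by simp)
    have h1 : fderiv ℝ (fun x => P ((G0m D f ∘ nrm) x)) x u
        = P (fderiv ℝ (G0m D f ∘ nrm) x u) := by
      have h2 : HasFDerivAt (fun x => P ((G0m D f ∘ nrm) x))
          (P.comp (fderiv ℝ (G0m D f ∘ nrm) x)) x := P.hasFDerivAt.comp x hd.hasFDerivAt
      rw [h2.fderiv]
      rfl
    rw [h1] at k1
    obtain ⟨lam, hlam⟩ := (hP _).1 k1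
    exact G0m_ker D hf hb hinj hx k2 k3 hlam
  · intro g x hx
    apply g3
    · simp only [Function.comp_apply]
      rw [G0m_gamAct D hodd hper]
    · exact cos_al_gamAct g hx
    · exact sin_al_gamAct g hx
    · exact cos_be_gamAct g hx
    · exact sin_be_gamAct g hx

end Pool.Agent.helper8.MC
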